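import Pool.Agent.TH838.PR.Emb

set_option autoImplicit false

/-!
Dynamical Mordell-Lang for linear recurrences with arbitrary complex polynomial coefficients.
-/

namespace Pool.Agent.TH838.PS

open MvPolynomial Pool.Agent.H936R2 Pool.Agent.H905R3.DML Pool.Agent.H905R3.DML.Core
  Pool.Agent.TH838.DS Pool.Agent.TH838.PR

/-- coordinates: time, scale, constants, sequences -/
abbrev Iy (d K r : ℕ) : Type := Option (Option ((Fin (d + 2) × Fin K) ⊕ (Fin r × Fin (d + 1))))

section

variable {d K r : ℕ}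

abbrev jt : Iy d K r := none
abbrev jz : Iy d K r := some none
abbrev jw (i : Fin (d + 2)) (k : Fin K) : Iy d K r := some (some (Sum.inl (i, k)))
abbrev jy (j : Fin r) (i : Fin (d + 1)) : Iy d K r := some (some (Sum.inr (j, i)))

/-- the polynomial `∑ c_{ik} t^k` -/
noncomputable def qpl (i : Fin (d + 2)) : MvPolynomial (Iy d K r) ℤ :=
  ∑ k : Fin K, X (jw i k) * X jt ^ (k : ℕ)

noncomputable def yd (j : Fin r) (i : Fin (d + 1)) : MvPolynomial (Iy d K r) ℤ :=
  Fin.lastCases (motive := fun _ => MvPolynomial (Iy d K r) ℤ)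
    (-(qpl 0 * X (jy j 0) + ∑ i' : Fin d, qpl i'.succ.castSucc * X (jy j i'.succ)))
    (fun i' => qpl (Fin.last (d + 1)) * X (jy j i'.succ)) i

/-- the self-map -/
noncomputable def FF : Iy d K r → MvPolynomial (Iy d K r) ℤ
  | none => X jt + 1
  | some none => qpl (Fin.last (d + 1)) * X jz
  | some (some (Sum.inl e)) => X (some (some (Sum.inl e)))
  | some (some (Sum.inr e)) => yd e.1 e.2

end

theorem det_ne' {d K r : ℕ} {k : Type} [Field k]
    (x : Iy d K r → k) (ha : eval x (map (Int.castRingHom k) (qpl 0)) ≠ 0)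
    (hb : eval x (map (Int.castRingHom k) (qpl (Fin.last (d + 1)))) ≠ 0) :
    (jac (overR k (FF (d := d) (K := K) (r := r))) x).det ≠ 0 := by
  classical
  intro h
  obtain ⟨v, hv0, hv⟩ := Matrix.exists_mulVec_eq_zero_iff.2 h
  apply hv0
  have e : ∀ i, Dv x v (overR k FF i) = 0 := fun i => congrFun hv i
  have ht : v jt = 0 := by
    have h1 := e jt
    simp only [overR, FF, map_add, map_X, map_one, Dv_add, Dv_X, Dv_one, add_zero] at h1
    exact h1
  have hw : ∀ q, v (some (some (Sum.inl q))) = 0 := by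
    intro q
    have h1 := e (some (some (Sum.inl q)))
    simp only [overR, FF, map_X, Dv_X] at h1
    exact h1
  have hpl : ∀ i : Fin (d + 2), Dv x v (map (Int.castRingHom k) (qpl i)) = 0 := by
    intro i
    simp only [qpl, map_sum, map_mul, map_pow, map_X]
    rw [Dv_sum]
    refine Finset.sum_eq_zero fun j _ => ?_
    rw [Dv_mul, Dv_X, Dv_pow_zero x v (by rw [Dv_X, ht]), hw, mul_zero, mul_zero, add_zero]
  have hz : v jz = 0 := by
    have h1 := e jz
    simp only [overR, FF, map_mul, map_X, Dv_mul, Dv_X, hpl, mul_zero, add_zero] at h1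
    exact (mul_eq_zero.1 h1).resolve_left hb
  have hs : ∀ (j : Fin r) (i : Fin d), v (jy j i.succ) = 0 := by
    intro j i
    have h1 := e (jy j i.castSucc)
    simp only [overR, FF, yd, Fin.lastCases_castSucc, map_mul, map_X, Dv_mul, Dv_X, hpl,
      mul_zero, add_zero] at h1
    exact (mul_eq_zero.1 h1).resolve_left hb
  have h0 : ∀ (j : Fin r), v (jy j 0) = 0 := by
    intro j
    have h1 := e (jy j (Fin.last d))
    simp only [overR, FF, yd, Fin.lastCases_last, map_neg, map_add, map_mul, map_X, Dv_neg,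
      Dv_add, Dv_mul, Dv_X, hpl, mul_zero, add_zero, map_sum, Dv_sum, hs,
      Finset.sum_const_zero, neg_eq_zero] at h1
    exact (mul_eq_zero.1 h1).resolve_left ha
  funext i
  rcases i with _ | _ | q | ⟨j, i⟩
  · exact ht
  · exact hz
  · exact hw q
  · refine Fin.cases ?_ ?_ i
    · exact h0 j
    · exact fun i' => hs j i'

section orbit

variable {d K r : ℕ}

/-- value of the polynomial with coefficients `c` -/
noncomputable def wl {k : Type} [CommRing k] (c : Fin K → k) (t : k) : k :=
  ∑ j, c j * t ^ (j : ℕ)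

theorem eval_qpl {k : Type} [CommRing k] (i : Fin (d + 2)) (x : Iy d K r → k) :
    eval x (map (Int.castRingHom k) (qpl i)) = wl (fun k => x (jw i k)) (x jt) := by
  simp only [qpl, wl, map_sum, map_mul, map_pow, map_X, eval_X]

theorem wl_map {k k' : Type} [CommRing k] [CommRing k'] (φ : k →+* k') (c : Fin K → k)
    (t : k) : φ (wl c t) = wl (fun j => φ (c j)) (φ t) := by
  simp only [wl, map_sum, map_mul, map_pow]

/-- the points of the orbit -/
noncomputable def pn (l : ℂ) (γ : Fin (d + 2) → Fin K → ℂ)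
    (s : Fin r → ℕ → ℂ) (n0 n : ℕ) : Iy d K r → ℂ
  | none => ((n0 + n : ℕ) : ℂ)
  | some none => l * ∏ k ∈ Finset.range n, wl (γ (Fin.last (d + 1))) ((n0 + k : ℕ) : ℂ)
  | some (some (Sum.inl e)) => γ e.1 e.2
  | some (some (Sum.inr e)) =>
      l * (∏ k ∈ Finset.range n, wl (γ (Fin.last (d + 1))) ((n0 + k : ℕ) : ℂ)) *
        s e.1 (n0 + n + e.2)

theorem orbit' (l : ℂ) (γ : Fin (d + 2) → Fin K → ℂ)
    (s : Fin r → ℕ → ℂ) (n0 : ℕ)
    (hrec : ∀ j n, n0 ≤ n → wl (γ 0) (n : ℂ) * s j n +
      ∑ i : Fin d, wl (γ i.succ.castSucc) (n : ℂ) * s j (n + i + 1) +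
        wl (γ (Fin.last (d + 1))) (n : ℂ) * s j (n + d + 1) = 0) (n : ℕ) :
    (cmap FF)^[n] (pn l γ s n0 0) = pn l γ s n0 n := by
  induction n with
  | zero => rfl
  | succ n ih =>
    rw [Function.iterate_succ_apply', ih]
    have hp : ∀ i : Fin (d + 2), eval (pn l γ s n0 n) (map (Int.castRingHom ℂ) (qpl i)) =
        wl (γ i) ((n0 + n : ℕ) : ℂ) := fun i => eval_qpl i _
    funext i
    rcases i with _ | _ | q | ⟨j, i⟩
    · simp only [cmap, FF, map_add, map_X, map_one, eval_X, pn]
      push_cast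
      ring
    · simp only [cmap, FF, map_mul, map_X, eval_X]
      rw [hp]
      simp only [pn]
      rw [Finset.prod_range_succ]
      ring
    · simp only [cmap, FF, map_X, eval_X, pn]
    · refine Fin.lastCases ?_ ?_ i
      · simp only [cmap, FF, yd, Fin.lastCases_last, map_neg, map_add, map_mul, map_X, map_sum,
          eval_X, hp]
        simp only [pn]
        have h := hrec j (n0 + n) (Nat.le_add_right _ _)
        rw [Finset.prod_range_succ]
        simp only [Fin.val_zero, Fin.val_succ, Fin.val_last, add_zero]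
        have e1 : n0 + (n + 1) + d = n0 + n + d + 1 := by ring
        rw [e1]
        have e2 : ∀ i' : Fin d, n0 + n + ((i' : ℕ) + 1) = n0 + n + i' + 1 := fun i' => by ring
        simp only [e2]
        have e3 : ∑ i' : Fin d, wl (γ i'.succ.castSucc) ((n0 + n : ℕ) : ℂ) *
            (l * (∏ k ∈ Finset.range n, wl (γ (Fin.last (d + 1))) ((n0 + k : ℕ) : ℂ)) *
              s j (n0 + n + i' + 1)) =
            (l * ∏ k ∈ Finset.range n, wl (γ (Fin.last (d + 1))) ((n0 + k : ℕ) : ℂ)) *
              ∑ i' : Fin d, wl (γ i'.succ.castSucc) ((n0 + n : ℕ) : ℂ) *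
                s j (n0 + n + i' + 1) := by
          rw [Finset.mul_sum]
          refine Finset.sum_congr rfl fun i' _ => ?_
          ring
        rw [e3]
        linear_combination
          (-(l * ∏ k ∈ Finset.range n, wl (γ (Fin.last (d + 1))) ((n0 + k : ℕ) : ℂ))) * h
      · intro i'
        simp only [cmap, FF, yd, Fin.lastCases_castSucc, map_mul, map_X, eval_X, hp]
        simp only [pn]
        rw [Finset.prod_range_succ]
        have e1 : n0 + n + (i'.succ : ℕ) = n0 + (n + 1) + (i'.castSucc : ℕ) := by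
          simp only [Fin.val_succ, Fin.val_castSucc]
          ring
        rw [e1]
        ring

end orbit

/-! ### Homogenisation -/

section hom

variable {d K r : ℕ}

noncomputable def hn (G : MvPolynomial (Option (Fin r × Fin (d + 1))) ℂ) :
    MvPolynomial (Iy d K r) ℂ :=
  ∑ e ∈ G.support, C (coeff e G) * X jt ^ (e none) *
    (∏ q : Fin r × Fin (d + 1), X (some (some (Sum.inr q))) ^ (e (some q))) *
      X jz ^ (G.support.sup (fun e => ∑ q, e (some q)) - ∑ q, e (some q))

theorem eval_hn (G : MvPolynomial (Option (Fin r × Fin (d + 1))) ℂ) (x : Iy d K r → ℂ)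
    (u : Fin r × Fin (d + 1) → ℂ) (hx : ∀ q, x (some (some (Sum.inr q))) = x jz * u q) :
    eval x (hn G) = x jz ^ (G.support.sup fun e => ∑ q, e (some q)) *
      eval (fun o => o.elim (x jt) u) G := by
  have hG := eval_eq' (fun o => Option.elim o (x jt) u) G
  rw [hG, Finset.mul_sum]
  simp only [hn, map_sum, map_mul, eval_C, map_pow, eval_X, map_prod]
  refine Finset.sum_congr rfl fun e he => ?_
  rw [Fintype.prod_option]
  simp only [Option.elim]
  have h1 : ∏ q : Fin r × Fin (d + 1), x (some (some (Sum.inr q))) ^ (e (some q)) =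
      x jz ^ (∑ q, e (some q)) * ∏ q, u q ^ (e (some q)) := by
    rw [← Finset.prod_pow_eq_pow_sum, ← Finset.prod_mul_distrib]
    refine Finset.prod_congr rfl fun q _ => ?_
    rw [hx, mul_pow]
  have h2 : ∑ q, e (some q) ≤ G.support.sup (fun e => ∑ q, e (some q)) :=
    Finset.le_sup (f := fun e : Option (Fin r × Fin (d + 1)) →₀ ℕ => ∑ q, e (some q)) he
  have h3 : x jz ^ (G.support.sup fun e => ∑ q, e (some q)) =
      x jz ^ (∑ q, e (some q)) *
        x jz ^ (G.support.sup (fun e => ∑ q, e (some q)) - ∑ q, e (some q)) := by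
    rw [← pow_add]
    congr 1
    omega
  rw [h1, h3]
  ring

end hom

/-! ### The criterion -/

theorem criterion_gen {p : ℕ} [hp : Fact p.Prime] {d K r : ℕ}
    (γ : Fin (d + 2) → Fin K → ℂ) (τ : ℂ →+* PadicAlgCl p) (hγ : ∀ i k, ‖τ (γ i k)‖ ≤ 1)
    (ha : ∀ n : ℕ, ‖τ (wl (γ 0) (n : ℂ))‖ = 1)
    (hb : ∀ n : ℕ, ‖τ (wl (γ (Fin.last (d + 1))) (n : ℂ))‖ = 1)
    (s : Fin r → ℕ → ℂ) (n0 : ℕ)
    (hrec : ∀ j n, n0 ≤ n → wl (γ 0) (n : ℂ) * s j n +
      ∑ i : Fin d, wl (γ i.succ.castSucc) (n : ℂ) * s j (n + i + 1) +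
        wl (γ (Fin.last (d + 1))) (n : ℂ) * s j (n + d + 1) = 0)
    (G : MvPolynomial (Option (Fin r × Fin (d + 1))) ℂ) :
    ∃ T : Finset (ℕ × ℕ), {n : ℕ | eval (fun o => o.elim (n : ℂ) fun e => s e.1 (n + e.2)) G = 0} =
      {k : ℕ | ∃ q ∈ T, ∃ t : ℕ, k = q.1 * t + q.2} := by
  classical
  obtain ⟨l, hl0, hl1, hl⟩ := exists_scale τ (fun e : Fin r × Fin (d + 1) => s e.1 (n0 + e.2))
  have hα : ∀ i, ‖τ (pn l γ s n0 0 i)‖ ≤ 1 := by
    intro i
    rcases i with _ | _ | q | q
    · simp only [pn, add_zero, map_natCast]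
      exact (((n0 : ℕ) : unitBall (PadicAlgCl p))).2
    · simp only [pn, Finset.range_zero, Finset.prod_empty, mul_one]
      exact hl1
    · simp only [pn]
      exact hγ q.1 q.2
    · simp only [pn, Finset.range_zero, Finset.prod_empty, mul_one, add_zero]
      exact hl q
  have hdml : DMLAt FF (pn l γ s n0 0) := by
    refine dml_core FF (pn l γ s n0 0) τ (fun i => ⟨_, hα i⟩) (fun i => rfl) 0 ?_
    intro n _
    apply isUnit_of_res_ne_zero
    set FO := overR (unitBall (PadicAlgCl p)) (FF (d := d) (K := K) (r := r)) with hFO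
    set w : Iy d K r → unitBall (PadicAlgCl p) :=
      (pt FO)^[n] (fun i => ⟨τ (pn l γ s n0 0 i), hα i⟩) with hw
    have h5 := jac_map (res (PadicAlgCl p)) FO w
    have h6 : (fun q => map (res (PadicAlgCl p)) (FO q)) = overR (ResF (PadicAlgCl p)) FF :=
      overR_map _ _
    rw [h6] at h5
    rw [RingHom.map_det, ← h5]
    have ht : ∀ k : ℕ, (pt FO)^[k] (fun i => (⟨τ (pn l γ s n0 0 i), hα i⟩ :
        unitBall (PadicAlgCl p))) jt = ((n0 + k : ℕ) : unitBall (PadicAlgCl p)) := by
      intro k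
      induction k with
      | zero =>
        apply Subtype.ext
        simp [pn]
      | succ k ih =>
        rw [Function.iterate_succ_apply']
        simp only [pt, hFO, overR, FF, map_add, map_X, map_one, eval_X]
        simp only [pt, hFO, overR] at ih
        rw [ih]
        push_cast
        ring
    have hcw : ∀ (k : ℕ) (q : Fin (d + 2) × Fin K),
        (pt FO)^[k] (fun i => (⟨τ (pn l γ s n0 0 i), hα i⟩ : unitBall (PadicAlgCl p)))
          (some (some (Sum.inl q))) = ⟨τ (γ q.1 q.2), hγ q.1 q.2⟩ := by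
      intro k q
      induction k with
      | zero => rfl
      | succ k ih =>
        rw [Function.iterate_succ_apply']
        simp only [pt, hFO, overR, FF, map_X, eval_X]
        simp only [pt, hFO, overR] at ih
        rw [ih]
    have hkey : ∀ i : Fin (d + 2), ‖τ (wl (γ i) ((n0 + n : ℕ) : ℂ))‖ = 1 →
        eval (fun i => res (PadicAlgCl p) (w i)) (map (Int.castRingHom _) (qpl i)) ≠ 0 := by
      intro i hi
      rw [eval_qpl]
      have h7 : wl (fun k => res (PadicAlgCl p) (w (jw i k))) (res (PadicAlgCl p) (w jt)) =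
          res (PadicAlgCl p) (wl (fun k => w (jw i k)) (w jt)) := (wl_map _ _ _).symm
      rw [h7]
      intro h8
      have h9 := (res_eq_zero_iff _).1 h8
      have h10 : ((wl (fun k => w (jw i k)) (w jt) : unitBall (PadicAlgCl p)) : PadicAlgCl p) =
          τ (wl (γ i) ((n0 + n : ℕ) : ℂ)) := by
        rw [wl_map τ]
        have h11 := wl_map (unitBall (PadicAlgCl p)).subtype (fun k => w (jw i k)) (w jt)
        rw [Subring.coe_subtype] at h11
        rw [h11]
        have h12 : ∀ k, ((w (jw i k) : unitBall (PadicAlgCl p)) : PadicAlgCl p) = τ (γ i k) :=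
          fun k => congrArg Subtype.val (hcw n (i, k))
        have h13 : ((w jt : unitBall (PadicAlgCl p)) : PadicAlgCl p) =
            τ ((n0 + n : ℕ) : ℂ) := by
          rw [hw, ht n, map_natCast]
          rfl
        simp only [h12, h13]
      rw [h10, hi] at h9
      exact lt_irrefl _ h9
    apply det_ne'
    · exact hkey 0 (ha _)
    · exact hkey _ (hb _)
  obtain ⟨T, hT⟩ := hdml {hn G}
  have hne : ∀ n : ℕ, wl (γ (Fin.last (d + 1))) (n : ℂ) ≠ 0 := by
    intro n h
    have h1 := hb n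
    rw [h, map_zero, norm_zero] at h1
    exact zero_ne_one h1
  apply shift_set (fun n => eval (fun o => o.elim (n : ℂ) fun e => s e.1 (n + e.2)) G = 0) n0 T
  rw [← hT]
  ext n
  simp only [Set.mem_ofPred_eq, Set.mem_singleton_iff, forall_eq]
  rw [orbit' l γ s n0 hrec n, eval_hn G (pn l γ s n0 n) (fun q => s q.1 (n0 + n + q.2))
    (fun q => rfl)]
  have hz : pn l γ s n0 n jz ≠ 0 := by
    simp only [pn]
    exact mul_ne_zero hl0 (Finset.prod_ne_zero_iff.2 fun k _ => hne _)
  have hit : pn l γ s n0 n jt = ((n0 + n : ℕ) : ℂ) := rfl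
  rw [hit]
  constructor
  · intro h
    rw [h, mul_zero]
  · intro h
    exact (mul_eq_zero.1 h).resolve_left (pow_ne_zero _ hz)

end Pool.Agent.TH838.PS
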