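import Pool.Agent.TH838.PR.Emb

set_option autoImplicit false

/-!
Embeddings of `ℂ` into the algebraic closure of `ℚ_p` under which given transcendental numbers stay
away from the integers.
-/

namespace Pool.Agent.TH838.PS

open Pool.Agent.H936R2 Pool.Agent.H905R3.DML Pool.Agent.H905R3.DML.Core Pool.Agent.TH838.PR
  Pool.Agent.TH838.DS

theorem indep_shift {ι M : Type} [Field M] [Algebra ℚ M] {x : ι → M}
    (hx : AlgebraicIndependent ℚ x) (w : ι → M) (hw : ∀ i, IsAlgebraic ℚ (w i)) :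
    AlgebraicIndependent ℚ (fun i => w i + x i) := by
  let A := algebraicClosure ℚ M
  have h1 : AlgebraicIndependent A x := hx.algebraicClosure
  let w' : ι → A := fun i => ⟨w i, mem_algebraicClosure_iff.2 (hw i)⟩
  have h2 : AlgebraicIndependent A (fun i => w i + x i) := by
    rw [algebraicIndependent_iff_injective_aeval] at h1 ⊢
    have h3 : (MvPolynomial.aeval (fun i => w i + x i) : MvPolynomial ι A →ₐ[A] M) =
        (MvPolynomial.aeval x).comp
          (MvPolynomial.aeval (fun i => MvPolynomial.C (w' i) + MvPolynomial.X i)) := by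
      apply MvPolynomial.algHom_ext
      intro i
      simp only [MvPolynomial.aeval_X, AlgHom.comp_apply, map_add, MvPolynomial.aeval_C]
      rfl
    rw [h3, AlgHom.coe_comp]
    refine h1.comp ?_
    apply Function.LeftInverse.injective
      (g := (MvPolynomial.aeval (fun i => MvPolynomial.X i - MvPolynomial.C (w' i)) :
        MvPolynomial ι A →ₐ[A] MvPolynomial ι A))
    intro f
    have h4 : ((MvPolynomial.aeval (fun i => MvPolynomial.X i - MvPolynomial.C (w' i))).comp
        (MvPolynomial.aeval (fun i => MvPolynomial.C (w' i) + MvPolynomial.X i)) :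
          MvPolynomial ι A →ₐ[A] MvPolynomial ι A) = AlgHom.id A _ := by
      apply MvPolynomial.algHom_ext
      intro i
      simp only [AlgHom.comp_apply, MvPolynomial.aeval_X, map_add, MvPolynomial.aeval_C,
        AlgHom.id_apply, MvPolynomial.algebraMap_eq]
      ring
    exact DFunLike.congr_fun h4 f
  exact h2.restrictScalars (algebraMap ℚ A).injective

/-- algebraically independent numbers can be mapped near given algebraic elements -/
theorem emb_near (p : ℕ) [hp : Fact p.Prime] {t : ℕ} (y : Fin t → ℂ)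
    (hy : AlgebraicIndependent ℚ y) (ω : Fin t → PadicAlgCl p) (hω : ∀ j, IsAlgebraic ℚ (ω j)) :
    ∃ τ : ℂ →+* PadicAlgCl p, ∀ j, ‖τ (y j) - ω j‖ < 1 := by
  classical
  obtain ⟨τ₀⟩ := exists_embedding p
  have hp1 : ‖((p : ℕ) : PadicAlgCl p)‖ < 1 := by
    have h3 : ((algebraMap ℚ_[p] (PadicAlgCl p)) (p : ℚ_[p])) = ((p : ℕ) : PadicAlgCl p) :=
      map_natCast _ _
    rw [← h3, show (algebraMap ℚ_[p] (PadicAlgCl p)) (p : ℚ_[p]) =
      (((p : ℚ_[p]) : PadicAlgCl p)) from rfl, PadicAlgCl.norm_extends]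
    exact Padic.norm_p_lt_one
  obtain ⟨N, hN⟩ : ∃ N : ℕ, ∀ j, ‖((p : ℕ) : PadicAlgCl p) ^ N * τ₀ (y j)‖ < 1 := by
    have hB : ∃ B : ℝ, 1 ≤ B ∧ ∀ j, ‖τ₀ (y j)‖ ≤ B := by
      refine ⟨1 + ∑ j, ‖τ₀ (y j)‖, ?_, fun j => ?_⟩
      · have : 0 ≤ ∑ j, ‖τ₀ (y j)‖ := Finset.sum_nonneg fun _ _ => norm_nonneg _
        linarith
      · have := Finset.single_le_sum (f := fun j => ‖τ₀ (y j)‖) (fun _ _ => norm_nonneg _)
          (Finset.mem_univ j)
        linarith
    obtain ⟨B, hB1, hB⟩ := hB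
    obtain ⟨N, hN⟩ := exists_pow_lt_of_lt_one (show (0 : ℝ) < 1 / B by positivity) hp1
    refine ⟨N, fun j => ?_⟩
    rw [norm_mul, norm_pow]
    calc ‖((p : ℕ) : PadicAlgCl p)‖ ^ N * ‖τ₀ (y j)‖ ≤
          ‖((p : ℕ) : PadicAlgCl p)‖ ^ N * B :=
          mul_le_mul_of_nonneg_left (hB j) (by positivity)
      _ < (1 / B) * B := mul_lt_mul_of_pos_right hN (by positivity)
      _ = 1 := by field_simp
  obtain ⟨s, hs0, hs⟩ := exists_isTranscendenceBasis_superset (R := ℚ) (s := Set.range y)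
    hy.to_subtype_range
  -- the new images of the basis
  let σ₀ : ℂ →ₐ[ℚ] PadicAlgCl p := τ₀.toRatAlgHom
  have hw0 : AlgebraicIndependent ℚ (fun b : s => σ₀ (b : ℂ)) :=
    hs.1.map' (f := σ₀) σ₀.toRingHom.injective
  have hw1 : AlgebraicIndependent ℚ
      (fun b : s => algebraMap ℚ (PadicAlgCl p) ((p : ℚ) ^ N) * σ₀ (b : ℂ)) :=
    indep_scale hw0 _ (pow_ne_zero _ (by exact_mod_cast hp.out.ne_zero))
  let w' : s → PadicAlgCl p := fun b => if h : ∃ j, y j = b then ω h.choose else 0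
  have hw' : ∀ b, IsAlgebraic ℚ (w' b) := by
    intro b
    by_cases h : ∃ j, y j = b
    · simp only [w', dif_pos h]
      exact hω _
    · simp only [w', dif_neg h]
      exact isAlgebraic_zero
  have hw : AlgebraicIndependent ℚ
      (fun b : s => w' b + algebraMap ℚ (PadicAlgCl p) ((p : ℚ) ^ N) * σ₀ (b : ℂ)) :=
    indep_shift hw1 w' hw'
  let A := Algebra.adjoin ℚ (Set.range ((↑) : s → ℂ))
  let ψ : A →ₐ[ℚ] PadicAlgCl p := (MvPolynomial.aeval
    (fun b : s => w' b + algebraMap ℚ (PadicAlgCl p) ((p : ℚ) ^ N) * σ₀ (b : ℂ))).comp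
    (hs.1.aevalEquiv.symm : A →ₐ[ℚ] MvPolynomial s ℚ)
  have hψ : Function.Injective ψ := by
    rw [algebraicIndependent_iff_injective_aeval] at hw
    exact hw.comp hs.1.aevalEquiv.symm.injective
  let _ : Algebra A (PadicAlgCl p) := ψ.toRingHom.toAlgebra
  have hf : FaithfulSMul A (PadicAlgCl p) :=
    (faithfulSMul_iff_algebraMap_injective A (PadicAlgCl p)).2 hψ
  have halg : Algebra.IsAlgebraic A ℂ := hs.isAlgebraic
  let τ : ℂ →ₐ[A] PadicAlgCl p := IsAlgClosed.lift
  refine ⟨τ.toRingHom, fun j => ?_⟩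
  have hmem : y j ∈ s := hs0 ⟨j, rfl⟩
  have e0 : ((hs.1.aevalEquiv (MvPolynomial.X (⟨y j, hmem⟩ : s)) : A) : ℂ) = y j := by
    simp
  have e1 : algebraMap A ℂ (hs.1.aevalEquiv (MvPolynomial.X (⟨y j, hmem⟩ : s))) = y j := e0
  have e2 : τ (y j) = ψ (hs.1.aevalEquiv (MvPolynomial.X (⟨y j, hmem⟩ : s))) :=
    (congrArg τ e1).symm.trans (τ.commutes _)
  have e3 : ψ (hs.1.aevalEquiv (MvPolynomial.X (⟨y j, hmem⟩ : s))) =
      w' ⟨y j, hmem⟩ + algebraMap ℚ (PadicAlgCl p) ((p : ℚ) ^ N) * σ₀ (y j) := by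
    change (MvPolynomial.aeval
      (fun b : s => w' b + algebraMap ℚ (PadicAlgCl p) ((p : ℚ) ^ N) * σ₀ (b : ℂ)))
        (hs.1.aevalEquiv.symm (hs.1.aevalEquiv (MvPolynomial.X (⟨y j, hmem⟩ : s)))) = _
    rw [AlgEquiv.symm_apply_apply, MvPolynomial.aeval_X]
  have e5 : w' ⟨y j, hmem⟩ = ω j := by
    have h : ∃ j', y j' = ((⟨y j, hmem⟩ : s) : ℂ) := ⟨j, rfl⟩
    simp only [w', dif_pos h]
    exact congrArg ω (hy.injective h.choose_spec)
  change ‖τ (y j) - ω j‖ < 1
  rw [e2, e3, e5]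
  have e4 : algebraMap ℚ (PadicAlgCl p) ((p : ℚ) ^ N) = ((p : ℕ) : PadicAlgCl p) ^ N := by
    rw [map_pow, map_natCast]
  rw [e4, add_sub_cancel_left]
  exact hN j

/-- the residues of the algebraic integers are infinite in number -/
theorem infinite_res (p : ℕ) [hp : Fact p.Prime] :
    (Set.range (fun ω : {ω : unitBall (PadicAlgCl p) // IsIntegral ℤ (ω : PadicAlgCl p)} =>
      res (PadicAlgCl p) ω.1)).Infinite := by
  classical
  intro hfin
  let B : Subring (ResF (PadicAlgCl p)) :=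
    (integralClosure ℤ (unitBall (PadicAlgCl p))).toSubring.map (res (PadicAlgCl p))
  have hint : ∀ ω : unitBall (PadicAlgCl p), IsIntegral ℤ ω ↔
      IsIntegral ℤ (ω : PadicAlgCl p) := by
    intro ω
    exact (isIntegral_algHom_iff ((unitBall (PadicAlgCl p)).subtype.toIntAlgHom)
      Subtype.val_injective).symm
  have hB : Finite B := by
    apply Set.Finite.to_subtype
    refine hfin.subset ?_
    rintro u ⟨ω, hω, rfl⟩
    exact ⟨⟨ω, (hint ω).1 hω⟩, rfl⟩
  letI : Fintype B := Fintype.ofFinite B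
  letI : Field B := Fintype.fieldOfDomain B
  have hq : ∀ u : B, u ^ (Fintype.card B) = u := fun u => FiniteField.pow_card u
  have hq2 : 1 < Fintype.card B := Fintype.one_lt_card
  set q := Fintype.card B with hqdef
  let f : Polynomial ℤ := Polynomial.X ^ q - (Polynomial.X + Polynomial.C 1)
  have hdeg : (Polynomial.X + Polynomial.C 1 : Polynomial ℤ).degree < (q : WithBot ℕ) := by
    rw [Polynomial.degree_X_add_C]
    exact_mod_cast hq2
  have hmon : f.Monic := Polynomial.monic_X_pow_sub hdeg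
  have hd : f.natDegree = q := by
    apply Polynomial.natDegree_eq_of_degree_eq_some
    rw [Polynomial.degree_sub_eq_left_of_degree_lt, Polynomial.degree_X_pow]
    rw [Polynomial.degree_X_pow]
    exact hdeg
  obtain ⟨z, hz⟩ := IsAlgClosed.exists_aeval_eq_zero (PadicAlgCl p) f (by
    rw [Polynomial.degree_eq_natDegree hmon.ne_zero, hd]
    exact_mod_cast (by omega : q ≠ 0))
  have hzi : IsIntegral ℤ z := ⟨f, hmon, by rw [← Polynomial.aeval_def]; exact hz⟩
  have hz1 : ‖z‖ ≤ 1 := norm_le_one hzi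
  set ζ : unitBall (PadicAlgCl p) := ⟨z, hz1⟩ with hζ
  have hζi : IsIntegral ℤ ζ := (hint ζ).2 hzi
  have hζB : res (PadicAlgCl p) ζ ∈ B := ⟨ζ, hζi, rfl⟩
  have h1 : ζ ^ q - (ζ + 1) = 0 := by
    apply Subtype.ext
    simp only [f, map_sub, map_pow, Polynomial.aeval_X, map_add, Polynomial.aeval_C] at hz
    simpa using hz
  have h2 := congrArg (res (PadicAlgCl p)) h1
  rw [map_sub, map_pow, map_add, map_one, map_zero] at h2
  have h3 : (res (PadicAlgCl p) ζ) ^ q = res (PadicAlgCl p) ζ :=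
    congrArg Subtype.val (hq ⟨_, hζB⟩)
  rw [h3] at h2
  have h4 : (1 : ResF (PadicAlgCl p)) = 0 := by linear_combination -h2
  exact one_ne_zero h4

theorem choose_res {k : Type} [Field k] {t : ℕ} {ι : Type} (E : Finset ι)
    (H : ι → MvPolynomial (Fin t) k) (hH : ∀ i ∈ E, H i ≠ 0) (S : Set k) (hS : S.Infinite) :
    ∃ u : Fin t → k, (∀ j, u j ∈ S) ∧ ∀ i ∈ E, MvPolynomial.eval u (H i) ≠ 0 := by
  by_contra hcon
  push Not at hcon
  have h1 : (∏ i ∈ E, H i) = 0 := by
    apply MvPolynomial.funext_set (fun _ => S) (fun _ => hS)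
    intro u hu
    rw [map_zero, map_prod]
    obtain ⟨i, hi, h⟩ := hcon u fun j => hu j (Set.mem_univ _)
    exact Finset.prod_eq_zero hi h
  obtain ⟨i, hi, h⟩ := Finset.prod_eq_zero_iff.1 h1
  exact hH i hi h

theorem clear {α : Type} (E : Finset α) (c : α → Polynomial ℚ) :
    ∃ D : ℤ, D ≠ 0 ∧ ∃ c' : α → Polynomial ℤ, ∀ e ∈ E,
      (c' e).map (Int.castRingHom ℚ) = Polynomial.C (D : ℚ) * c e := by
  classical
  induction E using Finset.induction_on with
  | empty => exact ⟨1, one_ne_zero, fun _ => 0, fun e he => absurd he (Finset.notMem_empty e)⟩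
  | insert a E ha ih =>
    obtain ⟨D, hD, c', hc'⟩ := ih
    obtain ⟨b, hb⟩ := IsLocalization.integerNormalization_map_to_map (nonZeroDivisors ℤ) (c a)
    have hb0 : (b : ℤ) ≠ 0 := nonZeroDivisors.coe_ne_zero b
    refine ⟨D * b, mul_ne_zero hD hb0, fun e => if e = a then
      Polynomial.C D * IsLocalization.integerNormalization (nonZeroDivisors ℤ) (c a) else
        Polynomial.C (b : ℤ) * c' e, fun e he => ?_⟩
    beta_reduce
    by_cases hea : e = a
    · subst hea
      rw [if_pos rfl, Polynomial.map_mul, Polynomial.map_C]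
      have h1 : (IsLocalization.integerNormalization (nonZeroDivisors ℤ) (c e)).map
          (Int.castRingHom ℚ) = Polynomial.C ((b : ℤ) : ℚ) * c e := by
        rw [show Int.castRingHom ℚ = algebraMap ℤ ℚ from rfl, hb, ← Polynomial.smul_eq_C_mul]
        rfl
      rw [h1, ← mul_assoc, ← Polynomial.C_mul]
      simp
    · rw [if_neg hea, Polynomial.map_mul, Polynomial.map_C,
        hc' e (Finset.mem_of_mem_insert_of_ne he hea), ← mul_assoc, ← Polynomial.C_mul]
      simp [mul_comm]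

end Pool.Agent.TH838.PS
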