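import Mathlib

set_option autoImplicit false

/-!
Primes modulo which two given integers are both non-squares.
-/

namespace Pool.Agent.TH838.PS

theorem jac_of_modEq (D : ℤ) {b b' M : ℕ} (hb : Odd b) (hb' : Odd b')
    (hM : 4 * D.natAbs ∣ M) (h : b ≡ b' [MOD M]) : jacobiSym D b = jacobiSym D b' := by
  rw [jacobiSym.mod_right D hb, jacobiSym.mod_right D hb']
  congr 1
  exact h.of_dvd hM

/-- a non-square has a prime modulo which it is not a square -/
theorem one_neg (D : ℤ) (hD : ¬ IsSquare D) (N : ℕ) :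
    ∃ p : ℕ, N < p ∧ p.Prime ∧ jacobiSym D p = -1 := by
  have hD0 : D ≠ 0 := by
    rintro rfl
    exact hD ⟨0, by norm_num⟩
  obtain ⟨a, b, hab, ha⟩ := Nat.sq_mul_squarefree D.natAbs
  have hb0 : b ≠ 0 := by
    rintro rfl
    simp only [ne_eq, OfNat.ofNat_ne_zero, not_false_eq_true, zero_pow, zero_mul] at hab
    exact hD0 (Int.natAbs_eq_zero.1 hab.symm)
  have ha0 : a ≠ 0 := ha.ne_zero
  -- the sign
  obtain ⟨ε, hε, hDε⟩ : ∃ ε : ℤ, (ε = 1 ∨ ε = -1) ∧ D = ε * ((b : ℤ) ^ 2 * (a : ℤ)) := by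
    have h1 : (D.natAbs : ℤ) = (b : ℤ) ^ 2 * (a : ℤ) := by
      rw [← hab]
      push_cast
      ring
    rcases Int.natAbs_eq D with h | h
    · exact ⟨1, Or.inl rfl, by rw [← h1, one_mul]; exact h⟩
    · exact ⟨-1, Or.inr rfl, by rw [← h1, neg_one_mul]; exact h⟩
  have hsplit : ∀ p : ℕ, p.Prime → b < p →
      jacobiSym D p = jacobiSym ε p * jacobiSym a p := by
    intro p hp hbp
    rw [hDε, jacobiSym.mul_left, jacobiSym.mul_left, jacobiSym.sq_one' , one_mul]
    rw [Int.gcd_natCast_natCast]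
    exact (Nat.coprime_comm.1 ((Nat.Prime.coprime_iff_not_dvd hp).2
      (Nat.not_dvd_of_pos_of_lt (Nat.pos_of_ne_zero hb0) hbp)))
  by_cases hq : ∃ q : ℕ, q.Prime ∧ q ≠ 2 ∧ q ∣ a
  · obtain ⟨q, hq, hq2, c, rfl⟩ := hq
    have hfq : Fact q.Prime := ⟨hq⟩
    have hqc : ¬ q ∣ c := by
      rintro ⟨e, rfl⟩
      have := ha q ⟨e, by ring⟩
      exact hq.one_lt.ne' (Nat.isUnit_iff.1 this)
    have hqo : Odd q := hq.odd_of_ne_two hq2
    have hc0 : c ≠ 0 := by
      rintro rfl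
      simp at hqc
    obtain ⟨v, hv⟩ := FiniteField.exists_nonsquare (F := ZMod q) (by rwa [ZMod.ringChar_zmod_n])
    have hcop : q.Coprime (8 * c) := by
      rw [Nat.Prime.coprime_iff_not_dvd hq]
      intro h'
      rcases hq.dvd_mul.1 h' with h' | h'
      · have h2 : q ∣ 2 ^ 3 := by simpa using h'
        exact hq2 ((Nat.prime_dvd_prime_iff_eq hq Nat.prime_two).1 (hq.dvd_of_dvd_pow h2))
      · exact hqc h'
    obtain ⟨k, hk1, hk2⟩ := Nat.chineseRemainder hcop v.val 1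
    have hkv : ((k : ℕ) : ZMod q) = v := by
      have h1 : ((k : ℕ) : ZMod q) = ((v.val : ℕ) : ZMod q) :=
        (ZMod.natCast_eq_natCast_iff _ _ _).2 hk1
      rw [h1, ZMod.natCast_zmod_val]
    have hkq : ¬ q ∣ k := by
      intro h'
      rw [← ZMod.natCast_eq_zero_iff, hkv] at h'
      exact hv ⟨0, by rw [h']; simp⟩
    have hkc : k.Coprime (8 * c) := by
      have : Nat.gcd k (8 * c) = Nat.gcd 1 (8 * c) := hk2.gcd_eq
      rw [Nat.Coprime, this, Nat.gcd_one_left]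
    have hkall : k.Coprime (q * (8 * c)) :=
      Nat.Coprime.mul_right ((Nat.Prime.coprime_iff_not_dvd hq).2 hkq).symm hkc
    obtain ⟨p, hpN, hp, hpk⟩ := Nat.forall_exists_prime_gt_and_modEq (N + b)
      (show q * (8 * c) ≠ 0 by
        have := hq.ne_zero
        positivity) hkall
    refine ⟨p, by omega, hp, ?_⟩
    have hp8c : p ≡ 1 [MOD 8 * c] := (hpk.of_mul_left q).trans hk2
    have hp8 : p % 8 = 1 := (hp8c.of_mul_right c : p ≡ 1 [MOD 8])
    have hpo : Odd p := Nat.odd_iff.2 (by omega)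
    have hp4 : p % 4 = 1 := by omega
    rw [hsplit p hp (by omega)]
    have e1 : jacobiSym ε p = 1 := by
      rcases hε with rfl | rfl
      · exact jacobiSym.one_left p
      · rw [jacobiSym.at_neg_one hpo, ZMod.χ₄_nat_one_mod_four hp4]
    have e2 : jacobiSym ((q * c : ℕ) : ℤ) p = jacobiSym (q : ℤ) p * jacobiSym (c : ℤ) p := by
      rw [Nat.cast_mul, jacobiSym.mul_left]
    have e3 : jacobiSym (c : ℤ) p = 1 := by
      have h1 := jac_of_modEq (c : ℤ) (b := p) (b' := 1) (M := 8 * c) hpo odd_one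
        ⟨2, by rw [Int.natAbs_natCast]; ring⟩ hp8c
      rw [h1, jacobiSym.one_right]
    have e4 : jacobiSym (q : ℤ) p = -1 := by
      rw [← jacobiSym.quadratic_reciprocity_one_mod_four hp4 hqo,
        ← jacobiSym.legendreSym.to_jacobiSym, legendreSym.eq_neg_one_iff]
      have h1 : ((p : ℤ) : ZMod q) = v := by
        rw [Int.cast_natCast, ← hkv]
        exact (ZMod.natCast_eq_natCast_iff _ _ _).2 (hpk.of_mul_right (8 * c))
      rw [h1]
      exact hv
    rw [e1, e2, e3, e4]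
    norm_num
  · push Not at hq
    have ha2 : a = 1 ∨ a = 2 := by
      have h1 : a.primeFactors ⊆ {2} := by
        intro q hq'
        rw [Nat.mem_primeFactors] at hq'
        rw [Finset.mem_singleton]
        by_contra h
        exact hq q hq'.1 h hq'.2.1
      have h2 : a ∣ 2 := by
        rw [← Nat.prod_primeFactors_of_squarefree ha]
        have := Finset.prod_dvd_prod_of_subset _ _ (fun p : ℕ => p) h1
        simpa using this
      exact (Nat.dvd_prime Nat.prime_two).1 h2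
    rcases ha2 with rfl | rfl
    · have hε' : ε = -1 := by
        rcases hε with rfl | rfl
        · exact absurd ⟨(b : ℤ), by rw [hDε]; push_cast; ring⟩ hD
        · rfl
      subst hε'
      obtain ⟨p, hpN, hp, hpk⟩ := Nat.forall_exists_prime_gt_and_modEq (N + b) (q := 4) (a := 3)
        (by norm_num) (by norm_num)
      refine ⟨p, by omega, hp, ?_⟩
      have hp4 : p % 4 = 3 := hpk
      have hpo : Odd p := Nat.odd_iff.2 (by omega)
      rw [hsplit p hp (by omega), jacobiSym.at_neg_one hpo, ZMod.χ₄_nat_three_mod_four hp4]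
      simp
    · obtain ⟨p, hpN, hp, hpk⟩ := Nat.forall_exists_prime_gt_and_modEq (N + b) (q := 8) (a := 5)
        (by norm_num) (by norm_num)
      refine ⟨p, by omega, hp, ?_⟩
      have hp8 : p % 8 = 5 := hpk
      have hpo : Odd p := Nat.odd_iff.2 (by omega)
      have hp4 : p % 4 = 1 := by omega
      rw [hsplit p hp (by omega)]
      have e1 : jacobiSym ε p = 1 := by
        rcases hε with rfl | rfl
        · exact jacobiSym.one_left p
        · rw [jacobiSym.at_neg_one hpo, ZMod.χ₄_nat_one_mod_four hp4]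
      have e2 : jacobiSym ((2 : ℕ) : ℤ) p = -1 := by
        rw [Nat.cast_ofNat, jacobiSym.at_two hpo]
        have h1 : ((p : ℕ) : ZMod 8) = 5 := by
          have h2 := (ZMod.natCast_eq_natCast_iff p 5 8).2 hpk
          rw [h2]
          rfl
        rw [h1]
        decide
      rw [e1, e2, one_mul]

/-- primes modulo which two non-squares are both not squares -/
theorem two_neg (D₁ D₂ : ℤ) (h1 : ¬ IsSquare D₁) (h2 : ¬ IsSquare D₂) (N : ℕ) :
    ∃ p : ℕ, N < p ∧ p.Prime ∧ ¬ IsSquare (D₁ : ZMod p) ∧ ¬ IsSquare (D₂ : ZMod p) := by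
  have hD1 : D₁ ≠ 0 := by
    rintro rfl
    exact h1 ⟨0, by norm_num⟩
  have hD2 : D₂ ≠ 0 := by
    rintro rfl
    exact h2 ⟨0, by norm_num⟩
  have hn1 : 0 < D₁.natAbs := Int.natAbs_pos.2 hD1
  have hn2 : 0 < D₂.natAbs := Int.natAbs_pos.2 hD2
  -- coprimality
  have hcop : ∀ (D : ℤ), D ≠ 0 → ∀ p : ℕ, p.Prime → D.natAbs < p → D.gcd p = 1 := by
    intro D hD p hp hlt
    have h3 : Nat.Coprime p D.natAbs := (Nat.Prime.coprime_iff_not_dvd hp).2
      (Nat.not_dvd_of_pos_of_lt (Int.natAbs_pos.2 hD) hlt)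
    rw [Int.gcd_eq_natAbs, Int.natAbs_natCast]
    exact h3.symm
  have hb : ∃ b : ℕ, Odd b ∧ b.Coprime (D₁.natAbs * D₂.natAbs) ∧ jacobiSym D₁ b = -1 ∧
      jacobiSym D₂ b = -1 := by
    obtain ⟨p₁, hp₁N, hp₁, hj₁⟩ := one_neg D₁ h1 (D₁.natAbs + D₂.natAbs + 2)
    obtain ⟨p₂, hp₂N, hp₂, hj₂⟩ := one_neg D₂ h2 (D₁.natAbs + D₂.natAbs + 2)
    have ho₁ : Odd p₁ := hp₁.odd_of_ne_two (by omega)
    have ho₂ : Odd p₂ := hp₂.odd_of_ne_two (by omega)
    have hc : ∀ p : ℕ, p.Prime → D₁.natAbs + D₂.natAbs + 2 < p →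
        p.Coprime (D₁.natAbs * D₂.natAbs) := by
      intro p hp hlt
      exact Nat.Coprime.mul_right
        ((Nat.Prime.coprime_iff_not_dvd hp).2 (Nat.not_dvd_of_pos_of_lt hn1 (by omega)))
        ((Nat.Prime.coprime_iff_not_dvd hp).2 (Nat.not_dvd_of_pos_of_lt hn2 (by omega)))
    rcases jacobiSym.eq_one_or_neg_one (hcop D₂ hD2 p₁ hp₁ (by omega)) with h21 | h21
    · rcases jacobiSym.eq_one_or_neg_one (hcop D₁ hD1 p₂ hp₂ (by omega)) with h12 | h12
      · have hz1 : NeZero p₁ := ⟨hp₁.ne_zero⟩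
        have hz2 : NeZero p₂ := ⟨hp₂.ne_zero⟩
        refine ⟨p₁ * p₂, ho₁.mul ho₂, Nat.Coprime.mul_left (hc _ hp₁ hp₁N) (hc _ hp₂ hp₂N), ?_, ?_⟩
        · rw [jacobiSym.mul_right, hj₁, h12]
          norm_num
        · rw [jacobiSym.mul_right, hj₂, h21]
          norm_num
      · exact ⟨p₂, ho₂, hc _ hp₂ hp₂N, h12, hj₂⟩
    · exact ⟨p₁, ho₁, hc _ hp₁ hp₁N, hj₁, h21⟩
  obtain ⟨b, hbo, hbc, hb1, hb2⟩ := hb
  have hbc4 : b.Coprime (4 * (D₁.natAbs * D₂.natAbs)) := by
    refine Nat.Coprime.mul_right ?_ hbc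
    have : Nat.Coprime b (2 ^ 2) := Nat.Coprime.pow_right _ (Nat.coprime_two_left.2 hbo).symm
    simpa using this
  obtain ⟨p, hpN, hp, hpb⟩ := Nat.forall_exists_prime_gt_and_modEq (N + 2)
    (show 4 * (D₁.natAbs * D₂.natAbs) ≠ 0 by positivity) hbc4
  have hpo : Odd p := hp.odd_of_ne_two (by omega)
  have hfp : Fact p.Prime := ⟨hp⟩
  have e1 : jacobiSym D₁ p = -1 := by
    rw [jac_of_modEq D₁ hpo hbo ⟨D₂.natAbs, by ring⟩ hpb, hb1]
  have e2 : jacobiSym D₂ p = -1 := by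
    rw [jac_of_modEq D₂ hpo hbo ⟨D₁.natAbs, by ring⟩ hpb, hb2]
  refine ⟨p, by omega, hp, ?_, ?_⟩
  · rw [← jacobiSym.legendreSym.to_jacobiSym, legendreSym.eq_neg_one_iff] at e1
    exact e1
  · rw [← jacobiSym.legendreSym.to_jacobiSym, legendreSym.eq_neg_one_iff] at e2
    exact e2

end Pool.Agent.TH838.PS
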