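import Pool.Agent.TH838.PS.Emb

set_option autoImplicit false

/-!
Embeddings of `ℂ` into the algebraic closure of `ℚ_p` under which given transcendental numbers stay
away from the integers, second part.
-/

namespace Pool.Agent.TH838.PS

open Pool.Agent.H936R2 Pool.Agent.H905R3.DML Pool.Agent.H905R3.DML.Core Pool.Agent.TH838.PR
  Pool.Agent.TH838.DS

/-- evaluation at `(y, θ)` -/
noncomputable def ev2 {k : Type} [CommRing k] {t : ℕ} (y : Fin t → k) (θ : k) :
    MvPolynomial (Fin t) (Polynomial ℤ) →+* k :=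
  MvPolynomial.eval₂Hom (Polynomial.eval₂RingHom (Int.castRingHom k) θ) y

theorem ev2_map {k k' : Type} [CommRing k] [CommRing k'] (φ : k →+* k') {t : ℕ} (y : Fin t → k)
    (θ : k) (F : MvPolynomial (Fin t) (Polynomial ℤ)) :
    φ (ev2 y θ F) = ev2 (fun j => φ (y j)) (φ θ) F := by
  have h : φ.comp (ev2 y θ) = ev2 (fun j => φ (y j)) (φ θ) := by
    apply MvPolynomial.ringHom_ext'
    · apply Polynomial.ringHom_ext'
      · exact RingHom.ext_int _ _
      · simp [ev2]
    · intro i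
      simp [ev2]
  exact DFunLike.congr_fun h F

theorem ev2_eval {k : Type} [CommRing k] {t : ℕ} (y : Fin t → k)
    (θ : k) (F : MvPolynomial (Fin t) (Polynomial ℤ)) :
    ev2 y θ F = MvPolynomial.eval y
      (MvPolynomial.map (Polynomial.eval₂RingHom (Int.castRingHom k) θ) F) := by
  rw [MvPolynomial.eval_map]
  rfl

theorem rel {t : ℕ} (y : Fin t → ℂ) (θ : ℂ) (hθ : Transcendental ℚ θ)
    (hdep : ¬ AlgebraicIndependent ℚ (fun o : Option (Fin t) => o.elim θ y)) :
    ∃ (F : MvPolynomial (Fin t) (Polynomial ℤ)) (E : Finset (Fin t →₀ ℕ))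
      (u : (Fin t →₀ ℕ) → Polynomial ℤ) (D : ℤ), D ≠ 0 ∧ ev2 y θ F = 0 ∧
        ∑ e ∈ E, u e * MvPolynomial.coeff e F = Polynomial.C D := by
  classical
  rw [algebraicIndependent_iff] at hdep
  push Not at hdep
  obtain ⟨G, hG, hG0⟩ := hdep
  set F₀ := MvPolynomial.optionEquivRight ℚ (Fin t) G with hF₀
  have hF₀0 : F₀ ≠ 0 := fun h =>
    hG0 ((MvPolynomial.optionEquivRight ℚ (Fin t)).injective (by rw [← hF₀, h, map_zero]))
  let evq : MvPolynomial (Fin t) (Polynomial ℚ) →+* ℂ := MvPolynomial.eval₂Hom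
    ((Polynomial.aeval θ : Polynomial ℚ →ₐ[ℚ] ℂ) : Polynomial ℚ →+* ℂ) y
  have hev : evq F₀ = 0 := by
    have h : (evq.comp ((MvPolynomial.optionEquivRight ℚ (Fin t) :
        MvPolynomial (Option (Fin t)) ℚ →+* MvPolynomial (Fin t) (Polynomial ℚ)))).toRatAlgHom =
        (MvPolynomial.aeval (fun o : Option (Fin t) => o.elim θ y) :
          MvPolynomial (Option (Fin t)) ℚ →ₐ[ℚ] ℂ) := by
      apply MvPolynomial.algHom_ext
      intro i
      rcases i with _ | i
      · rw [MvPolynomial.aeval_X]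
        change evq (MvPolynomial.optionEquivRight ℚ (Fin t) (MvPolynomial.X none)) = θ
        rw [MvPolynomial.optionEquivRight_X_none]
        simp [evq]
      · rw [MvPolynomial.aeval_X]
        change evq (MvPolynomial.optionEquivRight ℚ (Fin t) (MvPolynomial.X (some i))) = y i
        rw [MvPolynomial.optionEquivRight_X_some]
        simp [evq]
    have h1 := DFunLike.congr_fun h G
    rw [hG] at h1
    exact h1
  set I := Ideal.span (Set.range fun e => MvPolynomial.coeff e F₀) with hI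
  set h := Submodule.IsPrincipal.generator I with hh
  have hdvd : ∀ e, h ∣ MvPolynomial.coeff e F₀ := fun e =>
    (Submodule.IsPrincipal.mem_iff_generator_dvd I).1 (Ideal.subset_span ⟨e, rfl⟩)
  obtain ⟨F₁, hF₁⟩ := (MvPolynomial.C_dvd_iff_dvd_coeff h F₀).2 hdvd
  have hmem : h ∈ I := Submodule.IsPrincipal.generator_mem I
  obtain ⟨c, hc⟩ := Finsupp.mem_span_range_iff_exists_finsupp.1 hmem
  have hh0 : h ≠ 0 := by
    intro h0
    apply hF₀0
    rw [hF₁, h0, map_zero, zero_mul]
  have hcf : ∀ e, MvPolynomial.coeff e F₀ = h * MvPolynomial.coeff e F₁ := by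
    intro e
    rw [hF₁, MvPolynomial.coeff_C_mul]
  have hbez : ∑ e ∈ c.support, c e * MvPolynomial.coeff e F₁ = 1 := by
    apply mul_left_cancel₀ hh0
    rw [mul_one, Finset.mul_sum]
    conv_rhs => rw [← hc]
    rw [Finsupp.sum]
    refine Finset.sum_congr rfl fun e _ => ?_
    rw [smul_eq_mul, hcf]
    ring
  have hθh : Polynomial.aeval θ h ≠ 0 := fun h0 => hθ ⟨h, hh0, h0⟩
  have hev1 : evq F₁ = 0 := by
    have h1 : evq F₀ = Polynomial.aeval θ h * evq F₁ := by
      rw [hF₁, map_mul]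
      congr 1
      simp [evq]
    rw [hev] at h1
    exact (mul_eq_zero.1 h1.symm).resolve_left hθh
  obtain ⟨D₁, hD₁, c', hc'⟩ := clear c.support (fun e => c e)
  obtain ⟨D₂, hD₂, f', hf'⟩ := clear F₁.support (fun e => MvPolynomial.coeff e F₁)
  let F : MvPolynomial (Fin t) (Polynomial ℤ) := ∑ e ∈ F₁.support, MvPolynomial.monomial e (f' e)
  have hF : MvPolynomial.map (Polynomial.mapRingHom (Int.castRingHom ℚ)) F =
      MvPolynomial.C (Polynomial.C (D₂ : ℚ)) * F₁ := by
    have e1 : MvPolynomial.map (Polynomial.mapRingHom (Int.castRingHom ℚ)) F =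
        ∑ e ∈ F₁.support, MvPolynomial.C (Polynomial.C (D₂ : ℚ)) *
          MvPolynomial.monomial e (MvPolynomial.coeff e F₁) := by
      simp only [F, map_sum, MvPolynomial.map_monomial]
      refine Finset.sum_congr rfl fun e he => ?_
      rw [MvPolynomial.C_mul_monomial, Polynomial.coe_mapRingHom, hf' e he]
    rw [e1, ← Finset.mul_sum, MvPolynomial.support_sum_monomial_coeff]
  have hFc : ∀ e, (MvPolynomial.coeff e F).map (Int.castRingHom ℚ) =
      Polynomial.C (D₂ : ℚ) * MvPolynomial.coeff e F₁ := by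
    intro e
    have e1 := congrArg (MvPolynomial.coeff e) hF
    rw [MvPolynomial.coeff_map, MvPolynomial.coeff_C_mul] at e1
    exact e1
  refine ⟨F, c.support, c', D₁ * D₂, mul_ne_zero hD₁ hD₂, ?_, ?_⟩
  · have e1 : evq (MvPolynomial.map (Polynomial.mapRingHom (Int.castRingHom ℚ)) F) =
        ev2 y θ F := by
      have e2 : evq.comp (MvPolynomial.map (Polynomial.mapRingHom (Int.castRingHom ℚ))) =
          ev2 y θ := by
        apply MvPolynomial.ringHom_ext'
        · apply Polynomial.ringHom_ext'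
          · exact RingHom.ext_int _ _
          · simp [ev2, evq]
        · intro i
          simp [ev2, evq]
      exact DFunLike.congr_fun e2 F
    rw [← e1, hF, map_mul, hev1, mul_zero]
  · apply Polynomial.map_injective (Int.castRingHom ℚ) Int.cast_injective
    rw [Polynomial.map_sum, Polynomial.map_C]
    have e1 : ∀ e ∈ c.support, (c' e * MvPolynomial.coeff e F).map (Int.castRingHom ℚ) =
        Polynomial.C ((D₁ * D₂ : ℤ) : ℚ) * (c e * MvPolynomial.coeff e F₁) := by
      intro e he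
      rw [Polynomial.map_mul, hc' e he, hFc]
      push_cast
      rw [Polynomial.C_mul]
      ring
    rw [Finset.sum_congr rfl e1, ← Finset.mul_sum, hbez, mul_one]
    rfl

/-- For all large primes `p` finitely many given complex numbers can be mapped to integral elements
of the algebraic closure of `ℚ_p`, given transcendental numbers being mapped away from the
integers. -/
theorem emb_trans (s Θ : Finset ℂ) (hΘ : ∀ θ ∈ Θ, Transcendental ℚ θ) :
    ∃ N : ℕ, ∀ (p : ℕ) [Fact p.Prime], N < p →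
      ∃ τ : ℂ →+* PadicAlgCl p, (∀ x ∈ s, ‖τ x‖ ≤ 1) ∧ ∀ θ ∈ Θ, ∀ k : ℕ, ‖τ (θ - k)‖ = 1 := by
  classical
  let s' := s ∪ Θ
  let R := Algebra.adjoin ℚ (s' : Set ℂ)
  have hfg : Algebra.FiniteType ℚ R :=
    (Subalgebra.fg_iff_finiteType _).1 (Subalgebra.fg_adjoin_finset s')
  obtain ⟨t, g, hinj, hint⟩ := exists_integral_inj_algHom_of_fg ℚ R
  have hmem : ∀ x ∈ s', x ∈ R := fun x hx => Algebra.subset_adjoin hx
  have h1 : ∀ x : s', ∃ f : Polynomial (MvPolynomial (Fin t) ℚ), f.Monic ∧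
      Polynomial.eval₂ g.toRingHom (⟨x, hmem x x.2⟩ : R) f = 0 := fun x => hint _
  choose f hf h0 using h1
  choose N hN using fun x : s' => den_bound (f x)
  let y : Fin t → ℂ := fun j => ((g (MvPolynomial.X j) : R) : ℂ)
  have hy1 : (MvPolynomial.aeval y : MvPolynomial (Fin t) ℚ →ₐ[ℚ] ℂ) = R.val.comp g := by
    apply MvPolynomial.algHom_ext
    intro i
    simp [y]
  have hy : AlgebraicIndependent ℚ y := by
    rw [algebraicIndependent_iff_injective_aeval, hy1, AlgHom.coe_comp]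
    exact Subtype.val_injective.comp hinj
  have hsub : ∀ θ ∈ Θ, θ ∈ s' := fun θ h => Finset.mem_union_right _ h
  have hdep : ∀ θ : Θ, ¬ AlgebraicIndependent ℚ
      (fun o : Option (Fin t) => o.elim (θ : ℂ) y) := by
    intro θ hind
    rw [hy.option_iff_transcendental] at hind
    apply hind
    have hθs := hsub θ θ.2
    refine ⟨(f ⟨θ, hθs⟩).map (hy.aevalEquiv : MvPolynomial (Fin t) ℚ →+*
      Algebra.adjoin ℚ (Set.range y)), ((hf _).map _).ne_zero, ?_⟩
    rw [Polynomial.aeval_def, Polynomial.eval₂_map]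
    have e1 : (algebraMap (Algebra.adjoin ℚ (Set.range y)) ℂ).comp
        (hy.aevalEquiv : MvPolynomial (Fin t) ℚ →+* Algebra.adjoin ℚ (Set.range y)) =
        (R.val.toRingHom).comp g.toRingHom := by
      apply RingHom.ext
      intro z
      have e2 : algebraMap (Algebra.adjoin ℚ (Set.range y)) ℂ (hy.aevalEquiv z) =
          MvPolynomial.aeval y z := hy.algebraMap_aevalEquiv z
      have e3 : MvPolynomial.aeval y z = R.val (g z) := DFunLike.congr_fun hy1 z
      exact e2.trans e3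
    rw [e1]
    have e4 := congrArg (R.val.toRingHom) (h0 ⟨θ, hθs⟩)
    rw [Polynomial.hom_eval₂, map_zero] at e4
    exact e4
  choose F E u D hD hF hbez using fun θ : Θ => rel y θ (hΘ θ θ.2) (hdep θ)
  refine ⟨(Finset.univ.sup N) + ∑ θ : Θ, (D θ).natAbs, fun p hp hlt => ?_⟩
  haveI := charP_resF p
  have hDp : ∀ θ : Θ, ((D θ : ℤ) : ResF (PadicAlgCl p)) ≠ 0 := by
    intro θ h
    rw [CharP.intCast_eq_zero_iff _ p] at h
    have h2 := Int.natAbs_dvd_natAbs.2 h
    rw [Int.natAbs_natCast] at h2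
    have h3 := Nat.le_of_dvd (Int.natAbs_pos.2 (hD θ)) h2
    have h4 : (D θ).natAbs ≤ ∑ θ : Θ, (D θ).natAbs :=
      Finset.single_le_sum (f := fun θ : Θ => (D θ).natAbs) (fun _ _ => Nat.zero_le _)
        (Finset.mem_univ θ)
    omega
  let H : Θ × ℕ → MvPolynomial (Fin t) (ResF (PadicAlgCl p)) := fun q =>
    MvPolynomial.map (Polynomial.eval₂RingHom (Int.castRingHom _) (q.2 : ResF (PadicAlgCl p)))
      (F q.1)
  have hH : ∀ q ∈ (Finset.univ : Finset Θ) ×ˢ Finset.range p, H q ≠ 0 := by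
    rintro q - hq
    apply hDp q.1
    have e1 := congrArg (Polynomial.eval₂RingHom (Int.castRingHom _)
      (q.2 : ResF (PadicAlgCl p))) (hbez q.1)
    rw [map_sum] at e1
    have e2 : ∀ e ∈ E q.1, Polynomial.eval₂RingHom (Int.castRingHom _)
        (q.2 : ResF (PadicAlgCl p)) (u q.1 e * MvPolynomial.coeff e (F q.1)) = 0 := by
      intro e _
      have e3 := congrArg (MvPolynomial.coeff e) hq
      rw [MvPolynomial.coeff_map, MvPolynomial.coeff_zero] at e3
      rw [map_mul, e3, mul_zero]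
    rw [Finset.sum_eq_zero e2] at e1
    simpa using e1.symm
  obtain ⟨v, hv, hvH⟩ := choose_res _ H hH _ (infinite_res p)
  choose ω hω using hv
  obtain ⟨τ, hτ⟩ := emb_near p y hy (fun j => ((ω j).1 : PadicAlgCl p)) (fun j => by
    have h2 : IsAlgebraic ℤ ((ω j).1 : PadicAlgCl p) := (ω j).2.isAlgebraic
    exact h2.extendScalars Int.cast_injective)
  have hτ1 : ∀ j, ‖τ (y j)‖ ≤ 1 := by
    intro j
    have h2 : τ (y j) = (τ (y j) - ((ω j).1 : PadicAlgCl p)) + ((ω j).1 : PadicAlgCl p) := by ring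
    rw [h2]
    exact (IsUltrametricDist.norm_add_le_max _ _).trans (max_le (hτ j).le (ω j).1.2)
  have hs' : ∀ x ∈ s', ‖τ x‖ ≤ 1 := by
    intro x hx
    let ρ : R →+* PadicAlgCl p := τ.comp R.val.toRingHom
    have h3 : ρ (Polynomial.eval₂ g.toRingHom (⟨x, hmem x hx⟩ : R) (f ⟨x, hx⟩)) = 0 := by
      rw [h0 ⟨x, hx⟩, map_zero]
    rw [Polynomial.hom_eval₂] at h3
    have h4 : ρ (⟨x, hmem x hx⟩ : R) = τ x := rfl
    rw [h4] at h3
    refine norm_le_one_of_monic ((f ⟨x, hx⟩).map (ρ.comp g.toRingHom)) ((hf _).map _)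
      (fun i => ?_) (by rw [Polynomial.eval_map]; exact h3)
    rw [Polynomial.coeff_map]
    have h5 : ∀ c : MvPolynomial (Fin t) ℚ, (ρ.comp g.toRingHom) c =
        MvPolynomial.aeval (fun j => τ (y j)) c := by
      intro c
      have h6 : (ρ.comp g.toRingHom).toRatAlgHom =
          (MvPolynomial.aeval (fun j => τ (y j)) :
            MvPolynomial (Fin t) ℚ →ₐ[ℚ] PadicAlgCl p) := by
        apply MvPolynomial.algHom_ext
        intro j
        rw [MvPolynomial.aeval_X]
        rfl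
      exact DFunLike.congr_fun h6 c
    rw [h5]
    refine norm_aeval_le _ hτ1 _ fun e hdvd => ?_
    have h7 := Nat.le_of_dvd (Rat.den_pos _) hdvd
    have h8 := hN ⟨x, hx⟩ i e
    have h9 := Finset.le_sup (f := N) (Finset.mem_univ (⟨x, hx⟩ : s'))
    omega
  refine ⟨τ, fun x hx => hs' x (Finset.mem_union_left _ hx), fun θ hθ k => ?_⟩
  have hθ1 : ‖τ θ‖ ≤ 1 := hs' θ (hsub θ hθ)
  have hk1 : ‖(((k : ℕ) : unitBall (PadicAlgCl p)) : PadicAlgCl p)‖ ≤ 1 :=
    (((k : ℕ) : unitBall (PadicAlgCl p))).2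
  rw [map_sub, map_natCast]
  have hle : ‖τ θ - (k : PadicAlgCl p)‖ ≤ 1 := by
    rw [sub_eq_add_neg]
    refine (IsUltrametricDist.norm_add_le_max _ _).trans (max_le hθ1 ?_)
    rw [norm_neg]
    exact hk1
  refine le_antisymm hle ?_
  by_contra hlt1
  push Not at hlt1
  -- residues
  set τθ : unitBall (PadicAlgCl p) := ⟨τ θ, hθ1⟩ with hτθ
  set Y : Fin t → unitBall (PadicAlgCl p) := fun j => ⟨τ (y j), hτ1 j⟩ with hY
  have hr1 : res (PadicAlgCl p) τθ = ((k : ℕ) : ResF (PadicAlgCl p)) := by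
    have h2 : res (PadicAlgCl p) (τθ - ((k : ℕ) : unitBall (PadicAlgCl p))) = 0 := by
      rw [res_eq_zero_iff]
      exact hlt1
    rw [map_sub, map_natCast, sub_eq_zero] at h2
    exact h2
  have hr2 : ∀ j, res (PadicAlgCl p) (Y j) = v j := by
    intro j
    rw [← hω j]
    have h2 : res (PadicAlgCl p) (Y j - (ω j).1) = 0 := by
      rw [res_eq_zero_iff]
      exact hτ j
    rw [map_sub, sub_eq_zero] at h2
    exact h2
  have h10 : ev2 Y τθ (F ⟨θ, hθ⟩) = 0 := by
    apply Subtype.ext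
    have h11 := ev2_map (unitBall (PadicAlgCl p)).subtype Y τθ (F ⟨θ, hθ⟩)
    have h12 := ev2_map τ y θ (F ⟨θ, hθ⟩)
    rw [hF ⟨θ, hθ⟩, map_zero] at h12
    exact h11.trans h12.symm
  have h13 := congrArg (res (PadicAlgCl p)) h10
  rw [ev2_map, map_zero, hr1] at h13
  have h14 : (fun j => res (PadicAlgCl p) (Y j)) = v := funext hr2
  rw [h14] at h13
  have h15 : ((k : ℕ) : ResF (PadicAlgCl p)) = ((k % p : ℕ) : ResF (PadicAlgCl p)) := by
    rw [CharP.natCast_eq_natCast_mod _ p]
  rw [h15, ev2_eval] at h13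
  exact hvH (⟨θ, hθ⟩, k % p) (Finset.mem_product.2 ⟨Finset.mem_univ _,
    Finset.mem_range.2 (Nat.mod_lt _ hp.out.pos)⟩) h13

end Pool.Agent.TH838.PS
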