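import Pool.Agent.TH838.PS.Core
import Pool.Agent.TH838.PS.Rel
import Pool.Agent.TH838.PS.Quad

set_option autoImplicit false

/-!
Zero sets of P-recursive sequences: extreme coefficients without zeros modulo infinitely many primes.
-/

namespace Pool.Agent.TH838.PS

open Polynomial Pool.Agent.H936R2 Pool.Agent.H905R3.DML Pool.Agent.H905R3.DML.Core
  Pool.Agent.TH838.PR Pool.Agent.TH838.DS

theorem norm_int_one {p : ℕ} [hp : Fact p.Prime] {z : ℤ} (hz : (z : ZMod p) ≠ 0) :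
    ‖((z : ℤ) : PadicAlgCl p)‖ = 1 := by
  haveI := charP_resF p
  have h1 : ‖((z : ℤ) : PadicAlgCl p)‖ ≤ 1 := (((z : ℤ) : unitBall (PadicAlgCl p))).2
  refine le_antisymm h1 ?_
  by_contra h
  push Not at h
  have h2 : res (PadicAlgCl p) ((z : ℤ) : unitBall (PadicAlgCl p)) = 0 := by
    rw [res_eq_zero_iff]
    exact h
  rw [map_intCast, CharP.intCast_eq_zero_iff _ p] at h2
  exact hz ((CharP.intCast_eq_zero_iff _ p z).2 h2)

theorem norm_nat_le {p : ℕ} [hp : Fact p.Prime] (n : ℕ) : ‖((n : ℕ) : PadicAlgCl p)‖ ≤ 1 :=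
  (((n : ℕ) : unitBall (PadicAlgCl p))).2

theorem norm_eval_le {p : ℕ} [hp : Fact p.Prime] (τ : ℂ →+* PadicAlgCl p) (W : ℂ[X])
    (hW : ∀ i, ‖τ (W.coeff i)‖ ≤ 1) (n : ℕ) : ‖τ (W.eval (n : ℂ))‖ ≤ 1 := by
  rw [eval_eq_sum_range, map_sum]
  apply IsUltrametricDist.norm_sum_le_of_forall_le_of_nonneg zero_le_one
  intro i _
  rw [map_mul, map_pow, map_natCast, norm_mul, norm_pow]
  exact mul_le_one₀ (hW i) (by positivity) (pow_le_one₀ (norm_nonneg _) (norm_nat_le n))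

theorem unit_vals {p : ℕ} [hp : Fact p.Prime] (τ : ℂ →+* PadicAlgCl p) (W : ℂ[X])
    (hlc : ‖τ W.leadingCoeff‖ = 1) (n : ℕ)
    (h : ∀ θ ∈ W.roots, ‖τ ((n : ℂ) - θ)‖ = 1) : ‖τ (W.eval (n : ℂ))‖ = 1 := by
  rw [(IsAlgClosed.splits W).eval_eq_prod_roots, map_mul, norm_mul, hlc, one_mul]
  have key : ∀ M : Multiset ℂ, (∀ θ ∈ M, ‖τ ((n : ℂ) - θ)‖ = 1) →
      ‖τ ((M.map fun a => (n : ℂ) - a).prod)‖ = 1 := by
    intro M
    induction M using Multiset.induction_on with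
    | empty => intro _; simp
    | cons a M ih =>
      intro hM
      rw [Multiset.map_cons, Multiset.prod_cons, map_mul, norm_mul,
        hM a (Multiset.mem_cons_self a M), ih fun θ hθ => hM θ (Multiset.mem_cons_of_mem hθ),
        one_mul]
  exact key _ h

/-- The zero sets of all the sequences which satisfy a linear recurrence with polynomial
coefficients whose first coefficient is `P`, whose last coefficient is `Q` and whose middle
coefficients are in `S`. -/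
def ZeroSets (S : Set ℂ[X]) (P Q : ℂ[X]) : Prop :=
  ∀ (d r n₀ : ℕ) (c : Fin d → ℂ[X]) (a : Fin r → ℕ → ℂ), (∀ i, c i ∈ S) →
    (∀ j n, n₀ ≤ n → P.eval (n : ℂ) * a j n +
      ∑ i : Fin d, (c i).eval (n : ℂ) * a j (n + i + 1) + Q.eval (n : ℂ) * a j (n + d + 1) = 0) →
    ∀ G : MvPolynomial (Option (Fin r × Fin (d + 1))) ℂ,
      ∃ T : Finset (ℕ × ℕ),
        {n : ℕ | MvPolynomial.eval (fun o => o.elim (n : ℂ) fun e => a e.1 (n + e.2)) G = 0} =
          {k : ℕ | ∃ q ∈ T, ∃ t : ℕ, k = q.1 * t + q.2}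

theorem main_core {p : ℕ} [hp : Fact p.Prime] (τ : ℂ →+* PadicAlgCl p) (S : Set ℂ[X])
    (P Q : ℂ[X]) (hS : ∀ f ∈ S, ∀ k, ‖τ (f.coeff k)‖ ≤ 1) (hP : ∀ k, ‖τ (P.coeff k)‖ ≤ 1)
    (hQ : ∀ k, ‖τ (Q.coeff k)‖ ≤ 1) (hPu : ∀ n : ℕ, ‖τ (P.eval (n : ℂ))‖ = 1)
    (hQu : ∀ n : ℕ, ‖τ (Q.eval (n : ℂ))‖ = 1) : ZeroSets S P Q := by
  classical
  intro d r n₀ c a hcS hrec G
  let cf : Fin (d + 2) → ℂ[X] :=
    Fin.snoc (α := fun _ => ℂ[X]) (Fin.cons (α := fun _ => ℂ[X]) P c) Q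
  have hcf0 : cf 0 = P := by
    have : cf (Fin.castSucc 0) = P := by
      simp only [cf]
      rw [Fin.snoc_castSucc, Fin.cons_zero]
    exact this
  have hcfl : cf (Fin.last (d + 1)) = Q := Fin.snoc_last _ _
  have hcfm : ∀ i : Fin d, cf i.succ.castSucc = c i := by
    intro i
    simp only [cf]
    rw [Fin.snoc_castSucc, Fin.cons_succ]
  set K : ℕ := (Finset.univ.sup fun i => (cf i).natDegree) + 1 with hK
  have hlt : ∀ i, (cf i).natDegree < K := fun i =>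
    Nat.lt_succ_of_le (Finset.le_sup (f := fun i => (cf i).natDegree) (Finset.mem_univ i))
  have hev : ∀ i (t : ℂ), wl (fun k : Fin K => (cf i).coeff k) t = (cf i).eval t := by
    intro i t
    rw [Polynomial.eval_eq_sum_range' (hlt i), Finset.sum_range]
    rfl
  have hγ : ∀ (i : Fin (d + 2)) (k : Fin K), ‖τ ((cf i).coeff k)‖ ≤ 1 := by
    intro i k
    refine Fin.lastCases ?_ (fun i' => ?_) i
    · rw [hcfl]
      exact hQ k
    · refine Fin.cases ?_ (fun i'' => ?_) i'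
      · have : cf (Fin.castSucc 0) = P := hcf0
        rw [this]
        exact hP k
      · rw [hcfm]
        exact hS _ (hcS i'') k
  refine criterion_gen (p := p) (K := K) (fun i k => (cf i).coeff k) τ hγ ?_ ?_ a n₀
    (fun j n hn => ?_) G
  · intro n
    rw [hev, hcf0]
    exact hPu n
  · intro n
    rw [hev, hcfl]
    exact hQu n
  · have h := hrec j n hn
    simp only [hev]
    rw [hcf0, hcfl]
    simp only [hcfm]
    exact h

theorem main_int {p : ℕ} [hp : Fact p.Prime] (P Q : ℤ[X])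
    (hP : ∀ x : ZMod p, (P.map (Int.castRingHom (ZMod p))).eval x ≠ 0)
    (hQ : ∀ x : ZMod p, (Q.map (Int.castRingHom (ZMod p))).eval x ≠ 0) :
    ZeroSets {f : ℂ[X] | ∀ k, IsIntegral ℤ (f.coeff k)} (P.map (Int.castRingHom ℂ))
      (Q.map (Int.castRingHom ℂ)) := by
  obtain ⟨τ⟩ := exists_embedding p
  have h1 : ∀ (W : ℤ[X]) (k : ℕ), ‖τ ((W.map (Int.castRingHom ℂ)).coeff k)‖ ≤ 1 := by
    intro W k
    rw [coeff_map, eq_intCast, map_intCast]
    exact (((W.coeff k : ℤ) : unitBall (PadicAlgCl p))).2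
  have h2 : ∀ (W : ℤ[X]), (∀ x : ZMod p, (W.map (Int.castRingHom (ZMod p))).eval x ≠ 0) →
      ∀ n : ℕ, ‖τ ((W.map (Int.castRingHom ℂ)).eval (n : ℂ))‖ = 1 := by
    intro W hW n
    have h3 : (W.map (Int.castRingHom ℂ)).eval (n : ℂ) = ((W.eval (n : ℤ) : ℤ) : ℂ) := by
      have := eval_intCast_map (Int.castRingHom ℂ) W (n : ℤ)
      simpa using this
    rw [h3, map_intCast]
    apply norm_int_one
    have h4 := hW (n : ZMod p)
    have h5 := eval_intCast_map (Int.castRingHom (ZMod p)) W (n : ℤ)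
    intro h6
    apply h4
    have h7 : ((n : ℤ) : ZMod p) = (n : ZMod p) := by simp
    rw [h7] at h5
    rw [h5]
    simpa using h6
  exact main_core τ _ _ _ (fun f hf k => norm_le_one (map_isIntegral_int τ (hf k))) (h1 P) (h1 Q)
    (h2 P hP) (h2 Q hQ)

theorem main_A (P Q : ℂ[X]) (hP : P ≠ 0) (hQ : Q ≠ 0) (A : ℤ[X])
    (hA : ∀ θ : ℂ, IsAlgebraic ℚ θ → (P * Q).eval θ = 0 → aeval θ A = 0)
    (hinf : ∀ N : ℕ, ∃ p : ℕ, N < p ∧ p.Prime ∧
      ∀ x : ZMod p, (A.map (Int.castRingHom (ZMod p))).eval x ≠ 0) : ZeroSets Set.univ P Q := by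
  classical
  intro d r n₀ c a hcS hrec G
  let cf : Fin (d + 2) → ℂ[X] :=
    Fin.snoc (α := fun _ => ℂ[X]) (Fin.cons (α := fun _ => ℂ[X]) P c) Q
  have hcf0 : cf 0 = P := by
    have : cf (Fin.castSucc 0) = P := by
      simp only [cf]
      rw [Fin.snoc_castSucc, Fin.cons_zero]
    exact this
  have hcfl : cf (Fin.last (d + 1)) = Q := Fin.snoc_last _ _
  have hcfm : ∀ i : Fin d, cf i.succ.castSucc = c i := by
    intro i
    simp only [cf]
    rw [Fin.snoc_castSucc, Fin.cons_succ]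
  set K : ℕ := (Finset.univ.sup fun i => (cf i).natDegree) + 1 with hK
  have hlt : ∀ i, (cf i).natDegree < K := fun i =>
    Nat.lt_succ_of_le (Finset.le_sup (f := fun i => (cf i).natDegree) (Finset.mem_univ i))
  have hev : ∀ i (t : ℂ), wl (fun k : Fin K => (cf i).coeff k) t = (cf i).eval t := by
    intro i t
    rw [Polynomial.eval_eq_sum_range' (hlt i), Finset.sum_range]
    rfl
  -- the quotients
  let Bq : ℂ → ℂ[X] := fun θ => (A.map (Int.castRingHom ℂ)) /ₘ (X - C θ)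
  let Rt : Finset ℂ := (P * Q).roots.toFinset
  let s : Finset ℂ := (Finset.univ.image fun q : Fin (d + 2) × Fin K => (cf q.1).coeff q.2) ∪
    {P.leadingCoeff, P.leadingCoeff⁻¹, Q.leadingCoeff, Q.leadingCoeff⁻¹} ∪ Rt ∪
      Rt.biUnion (fun θ => (Bq θ).coeffs)
  let Θ : Finset ℂ := Rt.filter fun θ => Transcendental ℚ θ
  obtain ⟨N, hN⟩ := emb_trans s Θ (fun θ h => (Finset.mem_filter.1 h).2)
  obtain ⟨p, hNp, hp, hAp⟩ := hinf N
  haveI : Fact p.Prime := ⟨hp⟩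
  obtain ⟨τ, hτs, hτΘ⟩ := hN p hNp
  have hPQ : P * Q ≠ 0 := mul_ne_zero hP hQ
  have hγ : ∀ (i : Fin (d + 2)) (k : Fin K), ‖τ ((cf i).coeff k)‖ ≤ 1 := by
    intro i k
    apply hτs
    simp only [s, Finset.mem_union, Finset.mem_image, Finset.mem_univ, true_and]
    exact Or.inl (Or.inl (Or.inl ⟨(i, k), rfl⟩))
  have hs4 : ∀ x ∈ ({P.leadingCoeff, P.leadingCoeff⁻¹, Q.leadingCoeff, Q.leadingCoeff⁻¹} :
      Finset ℂ), ‖τ x‖ ≤ 1 := by
    intro x hx
    apply hτs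
    simp only [s, Finset.mem_union]
    exact Or.inl (Or.inl (Or.inr hx))
  have hlcu : ∀ x : ℂ, x ≠ 0 → ‖τ x‖ ≤ 1 → ‖τ x⁻¹‖ ≤ 1 → ‖τ x‖ = 1 := by
    intro x hx h1 h2
    refine le_antisymm h1 ?_
    have h3 : ‖τ x‖ * ‖τ x⁻¹‖ = 1 := by
      rw [← norm_mul, ← map_mul, mul_inv_cancel₀ hx, map_one, norm_one]
    nlinarith [norm_nonneg (τ x), norm_nonneg (τ x⁻¹)]
  have hlcP : ‖τ P.leadingCoeff‖ = 1 := hlcu _ (leadingCoeff_ne_zero.2 hP) (hs4 _ (by simp))
    (hs4 _ (by simp))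
  have hlcQ : ‖τ Q.leadingCoeff‖ = 1 := hlcu _ (leadingCoeff_ne_zero.2 hQ) (hs4 _ (by simp))
    (hs4 _ (by simp))
  have hroot : ∀ θ ∈ (P * Q).roots, ∀ n : ℕ, ‖τ ((n : ℂ) - θ)‖ = 1 := by
    intro θ hθ n
    have hθR : θ ∈ Rt := Multiset.mem_toFinset.2 hθ
    by_cases ht : Transcendental ℚ θ
    · have h1 := hτΘ θ (Finset.mem_filter.2 ⟨hθR, ht⟩) n
      rw [← norm_neg, ← map_neg, neg_sub] at h1
      exact h1
    · have halg : IsAlgebraic ℚ θ := by
        rw [Transcendental, not_not] at ht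
        exact ht
      have h0 := hA θ halg ((mem_roots hPQ).1 hθ)
      have hr : (X - C θ) * Bq θ = A.map (Int.castRingHom ℂ) := by
        apply mul_divByMonic_eq_iff_isRoot.2
        rw [IsRoot, eval_map]
        rw [aeval_def] at h0
        exact h0
      have h1 := congrArg (eval (n : ℂ)) hr
      rw [eval_mul, eval_sub, eval_X, eval_C] at h1
      have h2 : (A.map (Int.castRingHom ℂ)).eval (n : ℂ) = ((A.eval (n : ℤ) : ℤ) : ℂ) := by
        have := eval_intCast_map (Int.castRingHom ℂ) A (n : ℤ)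
        simpa using this
      rw [h2] at h1
      have h3 : ‖((A.eval (n : ℤ) : ℤ) : PadicAlgCl p)‖ = 1 := by
        apply norm_int_one
        have h4 := hAp (n : ZMod p)
        have h5 := eval_intCast_map (Int.castRingHom (ZMod p)) A (n : ℤ)
        intro h6
        apply h4
        have h7 : ((n : ℤ) : ZMod p) = (n : ZMod p) := by simp
        rw [h7] at h5
        rw [h5]
        simpa using h6
      have h4 := congrArg (fun z => ‖τ z‖) h1
      simp only [map_mul, norm_mul, map_intCast] at h4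
      rw [h3] at h4
      have h5 : ‖τ ((Bq θ).eval (n : ℂ))‖ ≤ 1 := by
        apply norm_eval_le
        intro i
        by_cases hi : (Bq θ).coeff i = 0
        · rw [hi, map_zero, norm_zero]
          exact zero_le_one
        · apply hτs
          simp only [s, Finset.mem_union, Finset.mem_biUnion]
          exact Or.inr ⟨θ, hθR, coeff_mem_coeffs hi⟩
      have h6 : ‖τ ((n : ℂ) - θ)‖ ≤ 1 := by
        rw [map_sub, map_natCast, sub_eq_add_neg]
        refine (IsUltrametricDist.norm_add_le_max _ _).trans (max_le (norm_nat_le n) ?_)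
        rw [norm_neg]
        apply hτs
        simp only [s, Finset.mem_union]
        exact Or.inl (Or.inr hθR)
      refine le_antisymm h6 ?_
      nlinarith [norm_nonneg (τ ((n : ℂ) - θ)), norm_nonneg (τ ((Bq θ).eval (n : ℂ)))]
  have hPQr : ∀ θ, θ ∈ P.roots ∨ θ ∈ Q.roots → θ ∈ (P * Q).roots := by
    intro θ h
    rw [roots_mul hPQ, Multiset.mem_add]
    exact h
  refine criterion_gen (p := p) (K := K) (fun i k => (cf i).coeff k) τ hγ ?_ ?_ a n₀
    (fun j n hn => ?_) G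
  · intro n
    rw [hev, hcf0]
    exact unit_vals τ P hlcP n fun θ hθ => hroot θ (hPQr θ (Or.inl hθ)) n
  · intro n
    rw [hev, hcfl]
    exact unit_vals τ Q hlcQ n fun θ hθ => hroot θ (hPQr θ (Or.inr hθ)) n
  · have h := hrec j n hn
    simp only [hev]
    rw [hcf0, hcfl]
    simp only [hcfm]
    exact h

theorem main_B (P Q : ℂ[X]) (hP : P ≠ 0) (hQ : Q ≠ 0) (D₁ D₂ : ℤ) (h1 : ¬ IsSquare D₁)
    (h2 : ¬ IsSquare D₂)
    (hD : ∀ θ : ℂ, IsAlgebraic ℚ θ → (P * Q).eval θ = 0 →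
      ∃ B : ℚ[X], (aeval θ B) ^ 2 = (D₁ : ℂ) ∨ (aeval θ B) ^ 2 = (D₂ : ℂ)) : ZeroSets Set.univ P Q := by
  classical
  have hPQ : P * Q ≠ 0 := mul_ne_zero hP hQ
  let Rt : Finset ℂ := (P * Q).roots.toFinset.filter fun θ => IsAlgebraic ℚ θ
  have hRt : ∀ θ : Rt, ∃ (B : ℤ[X]) (b D : ℤ), b ≠ 0 ∧ (D = D₁ ∨ D = D₂) ∧
      (aeval (θ : ℂ) B) ^ 2 = (b : ℂ) ^ 2 * (D : ℂ) := by
    intro θ
    have hθ := Finset.mem_filter.1 θ.2
    obtain ⟨B, hB⟩ := hD θ hθ.2 ((mem_roots hPQ).1 (Multiset.mem_toFinset.1 hθ.1))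
    obtain ⟨b, hb, B', hB'⟩ := clear (Finset.univ : Finset Unit) (fun _ => B)
    have h3 : aeval (θ : ℂ) (B' ()) = (b : ℂ) * aeval (θ : ℂ) B := by
      have h4 := congrArg (aeval (θ : ℂ)) (hB' () (Finset.mem_univ _))
      rw [map_mul, aeval_C] at h4
      have h5 : aeval (θ : ℂ) ((B' ()).map (Int.castRingHom ℚ)) = aeval (θ : ℂ) (B' ()) := by
        rw [aeval_def, eval₂_map, aeval_def]
        congr 1
      rw [h5] at h4
      rw [h4]
      simp
    rcases hB with hB | hB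
    · exact ⟨B' (), b, D₁, hb, Or.inl rfl, by rw [h3, mul_pow, hB]⟩
    · exact ⟨B' (), b, D₂, hb, Or.inr rfl, by rw [h3, mul_pow, hB]⟩
  choose B b D hb hDD hB using hRt
  refine main_A P Q hP hQ (∏ θ : Rt, (B θ ^ 2 - C (b θ ^ 2 * D θ))) ?_ ?_
  · intro θ halg h0
    have hmem : θ ∈ Rt := Finset.mem_filter.2
      ⟨Multiset.mem_toFinset.2 ((mem_roots hPQ).2 h0), halg⟩
    rw [map_prod]
    apply Finset.prod_eq_zero (Finset.mem_univ (⟨θ, hmem⟩ : Rt))
    rw [map_sub, map_pow, hB ⟨θ, hmem⟩, aeval_C]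
    simp
  · intro N
    obtain ⟨p, hNp, hp, hn1, hn2⟩ := two_neg D₁ D₂ h1 h2 (N + ∑ θ : Rt, (b θ).natAbs)
    haveI : Fact p.Prime := ⟨hp⟩
    refine ⟨p, by omega, hp, fun x hx => ?_⟩
    rw [Polynomial.map_prod, eval_prod, Finset.prod_eq_zero_iff] at hx
    obtain ⟨θ, -, hθ⟩ := hx
    simp only [Polynomial.map_sub, Polynomial.map_pow, map_C, eval_sub, eval_pow, eval_C,
      sub_eq_zero] at hθ
    rw [eq_intCast] at hθ
    have hbp : ((b θ : ℤ) : ZMod p) ≠ 0 := by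
      intro h
      rw [ZMod.intCast_zmod_eq_zero_iff_dvd] at h
      have h3 := Int.natAbs_dvd_natAbs.2 h
      rw [Int.natAbs_natCast] at h3
      have h4 := Nat.le_of_dvd (Int.natAbs_pos.2 (hb θ)) h3
      have h5 : (b θ).natAbs ≤ ∑ θ : Rt, (b θ).natAbs :=
        Finset.single_le_sum (f := fun θ : Rt => (b θ).natAbs) (fun _ _ => Nat.zero_le _)
          (Finset.mem_univ θ)
      omega
    have hsq : IsSquare ((D θ : ℤ) : ZMod p) := by
      refine ⟨eval x ((B θ).map (Int.castRingHom (ZMod p))) / (b θ : ZMod p), ?_⟩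
      rw [div_mul_div_comm, ← pow_two, hθ]
      push_cast
      field_simp
    rcases hDD θ with h | h
    · rw [h] at hsq
      exact hn1 hsq
    · rw [h] at hsq
      exact hn2 hsq

end Pool.Agent.TH838.PS
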