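import Pool.Agent.TH838.PR.Sieve
import Pool.Agent.TH838.PS.Main

set_option autoImplicit false

/-!
The sieve for pairs of polynomials without zeros modulo some large prime.
-/

namespace Pool.Agent.TH838.PR

open Finset Pool.Agent.TH838.DS Pool.Agent.H684R3.Smo

/-- Good pairs of polynomials: no zero modulo some prime larger than `N`. -/
def GoodGt (N : ℕ) {m m' : ℕ} (v : Fin (m + 1) ⊕ Fin (m' + 1) → ℤ) : Prop :=
  ∃ (p : ℕ) (_ : Fact p.Prime), N < p ∧ (∀ x : ZMod p, vl (fun i => v (Sum.inl i)) x ≠ 0) ∧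
    ∀ x : ZMod p, vl (fun i => v (Sum.inr i)) x ≠ 0

theorem sieve_gt {m m' : ℕ} (hm : m ≠ 1) (hm' : m' ≠ 1) (N : ℕ) :
    ∃ δ : ℝ, 0 < δ ∧ ∃ H₀ : ℕ, ∀ H : ℕ, H₀ ≤ H → ∀ b : Fin (m + 1) ⊕ Fin (m' + 1) → ℤ,
      (Nat.card {v : Fin (m + 1) ⊕ Fin (m' + 1) → ℤ // (∀ i, |v i - b i| ≤ (H : ℤ)) ∧
        ¬ GoodGt N v} : ℝ) ≤ (H : ℝ) ^ (-δ) * (2 * H + 1 : ℝ) ^ (m + m' + 2) := by
  classical
  have hcard : Fintype.card (Fin (m + 1) ⊕ Fin (m' + 1)) = m + m' + 2 := by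
    rw [Fintype.card_sum, Fintype.card_fin, Fintype.card_fin]
    ring
  let P : ℕ → Prop := fun p => p.Prime ∧ N + 4 ≤ p
  let G : ∀ p : ℕ, Set ((Fin (m + 1) ⊕ Fin (m' + 1)) → ZMod p) := fun p =>
    {w | ∃ _ : Fact p.Prime, (∀ x : ZMod p, uu (some x) (fun i => w (Sum.inl i)) ≠ 0) ∧
      ∀ x : ZMod p, uu (some x) (fun i => w (Sum.inr i)) ≠ 0}
  set κ : ℝ := (1 / (4 * (m + 1))) * (1 / (4 * (m' + 1))) with hκ
  have hκ0 : 0 < κ := by positivity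
  have hG : ∀ p, P p → p.Prime ∧ κ * (p : ℝ) ^ Fintype.card (Fin (m + 1) ⊕ Fin (m' + 1)) ≤ (Nat.card (G p) : ℝ) := by
    intro p hp
    haveI hpp : Fact p.Prime := ⟨hp.1⟩
    refine ⟨hp.1, ?_⟩
    have h4p : 4 ≤ p := le_trans (Nat.le_add_left 4 N) hp.2
    have h1 := count_noroot (p := p) hm h4p
    have h2 := count_noroot (p := p) hm' h4p
    have e : (G p) ≃ {c : Fin (m + 1) → ZMod p // ∀ x : ZMod p, uu (some x) c ≠ 0} ×
        {c : Fin (m' + 1) → ZMod p // ∀ x : ZMod p, uu (some x) c ≠ 0} :=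
      { toFun := fun w => (⟨fun i => w.1 (Sum.inl i), w.2.choose_spec.1⟩,
          ⟨fun i => w.1 (Sum.inr i), w.2.choose_spec.2⟩)
        invFun := fun c => ⟨Sum.elim c.1.1 c.2.1, hpp, c.1.2, c.2.2⟩
        left_inv := fun w => by
          apply Subtype.ext
          funext i
          rcases i with i | i <;> rfl
        right_inv := fun c => rfl }
    rw [Nat.card_congr e, Nat.card_prod, hcard]
    push_cast
    calc κ * (p : ℝ) ^ (m + m' + 2) = ((1 / (4 * (m + 1)) : ℝ) * (p : ℝ) ^ (m + 1)) *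
          ((1 / (4 * (m' + 1)) : ℝ) * (p : ℝ) ^ (m' + 1)) := by
          rw [hκ]
          ring
      _ ≤ _ := mul_le_mul h1 h2 (by positivity) (by positivity)
  obtain ⟨δ, hδ, H₀, hH₀⟩ := (t5 (t4 (t3 t1 t2))) (Fin (m + 1) ⊕ Fin (m' + 1)) P G κ (1 / 2) 4 hκ0
    (by norm_num) (by norm_num) (by norm_num) hG (t9 (1 / 2) (N + 4) (by norm_num))
  refine ⟨δ, hδ, H₀, fun H hH b => ?_⟩
  rw [mul_comm, ← hcard]
  refine le_trans ?_ (hH₀ H hH b)
  have hfin : Finite {v : (Fin (m + 1) ⊕ Fin (m' + 1)) → ℤ // v ∈ bx b H ∧ ∀ p, P p →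
      (p : ℝ) ≤ Real.log H ^ (4 : ℝ) → (fun i => (v i : ZMod p)) ∉ G p} :=
    Set.Finite.subset (Finset.finite_toSet (bx b H)) fun v hv => hv.1
  have hle := Nat.card_le_card_of_injective
    (fun v : {v : (Fin (m + 1) ⊕ Fin (m' + 1)) → ℤ // (∀ i, |v i - b i| ≤ (H : ℤ)) ∧ ¬ GoodGt N v} =>
      (⟨v.1, by
        simp only [bx, Fintype.mem_piFinset, Finset.mem_Icc]
        intro i
        have := abs_le.1 (v.2.1 i)
        constructor <;> linarith [this.1, this.2], fun p hp _ h => v.2.2 (by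
          obtain ⟨hpp, h1, h2⟩ := h
          refine ⟨p, hpp, by have := hp.2; omega, fun x => ?_, fun x => ?_⟩
          · have h3 := h1 x
            rw [uu_cast] at h3
            exact h3
          · have h3 := h2 x
            rw [uu_cast] at h3
            exact h3)⟩ :
        {v : (Fin (m + 1) ⊕ Fin (m' + 1)) → ℤ // v ∈ bx b H ∧ ∀ p, P p →
          (p : ℝ) ≤ Real.log H ^ (4 : ℝ) → (fun i => (v i : ZMod p)) ∉ G p}))
    (fun v w hvw => Subtype.ext (congrArg (fun z => z.1) hvw))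
  exact_mod_cast hle

end Pool.Agent.TH838.PR

namespace Pool.Agent.TH838.PS

open Polynomial Pool.Agent.H936R2 Pool.Agent.H905R3.DML Pool.Agent.H905R3.DML.Core
  Pool.Agent.TH838.PR Pool.Agent.TH838.DS

theorem main_int_emb {p : ℕ} [hp : Fact p.Prime] (τ : ℂ →+* PadicAlgCl p) (S : Set ℂ[X])
    (hS : ∀ f ∈ S, ∀ k, ‖τ (f.coeff k)‖ ≤ 1) (P Q : ℤ[X])
    (hP : ∀ x : ZMod p, (P.map (Int.castRingHom (ZMod p))).eval x ≠ 0)
    (hQ : ∀ x : ZMod p, (Q.map (Int.castRingHom (ZMod p))).eval x ≠ 0) :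
    ZeroSets S (P.map (Int.castRingHom ℂ)) (Q.map (Int.castRingHom ℂ)) := by
  have h1 : ∀ (W : ℤ[X]) (k : ℕ), ‖τ ((W.map (Int.castRingHom ℂ)).coeff k)‖ ≤ 1 := by
    intro W k
    rw [coeff_map, eq_intCast, map_intCast]
    exact (((W.coeff k : ℤ) : unitBall (PadicAlgCl p))).2
  have h2 : ∀ (W : ℤ[X]), (∀ x : ZMod p, (W.map (Int.castRingHom (ZMod p))).eval x ≠ 0) →
      ∀ n : ℕ, ‖τ ((W.map (Int.castRingHom ℂ)).eval (n : ℂ))‖ = 1 := by
    intro W hW n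
    have h3 : (W.map (Int.castRingHom ℂ)).eval (n : ℂ) = ((W.eval (n : ℤ) : ℤ) : ℂ) := by
      have := eval_intCast_map (Int.castRingHom ℂ) W (n : ℤ)
      simpa using this
    rw [h3, map_intCast]
    apply norm_int_one
    have h4 := hW (n : ZMod p)
    have h5 := eval_intCast_map (Int.castRingHom (ZMod p)) W (n : ℤ)
    intro h6
    apply h4
    have h7 : ((n : ℤ) : ZMod p) = (n : ZMod p) := by simp
    rw [h7] at h5
    rw [h5]
    simpa using h6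
  exact main_core τ _ _ _ hS (h1 P) (h1 Q) (h2 P hP) (h2 Q hQ)

/-- integral polynomial with given coefficients -/
noncomputable def ipol {m : ℕ} (c : Fin (m + 1) → ℤ) : ℤ[X] := ∑ i : Fin (m + 1), C (c i) * X ^ (i : ℕ)

theorem ipol_eval {m : ℕ} (c : Fin (m + 1) → ℤ) {k : Type} [CommRing k] (x : k) :
    ((ipol c).map (Int.castRingHom k)).eval x = vl c x := by
  simp only [ipol, vl, Polynomial.map_sum, Polynomial.map_mul, Polynomial.map_pow, map_C, map_X,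
    eval_finset_sum, eval_mul, eval_pow, eval_C, eval_X]
  rfl

theorem main_gen {m m' : ℕ} (hm : m ≠ 1) (hm' : m' ≠ 1) (s : Finset ℂ) :
    ∃ δ : ℝ, 0 < δ ∧ ∃ H₀ : ℕ, ∀ H : ℕ, H₀ ≤ H → ∀ b : Fin (m + 1) ⊕ Fin (m' + 1) → ℤ,
      (Nat.card {v : Fin (m + 1) ⊕ Fin (m' + 1) → ℤ // (∀ i, |v i - b i| ≤ (H : ℤ)) ∧
        ¬ ZeroSets {f : ℂ[X] | ∀ k, f.coeff k ∈ Algebra.adjoin ℤ (s : Set ℂ)}
          ((∑ i : Fin (m + 1), C (v (Sum.inl i)) * X ^ (i : ℕ) : ℤ[X]).map (Int.castRingHom ℂ))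
          ((∑ i : Fin (m' + 1), C (v (Sum.inr i)) * X ^ (i : ℕ) : ℤ[X]).map
            (Int.castRingHom ℂ))} : ℝ) ≤
        (H : ℝ) ^ (-δ) * (2 * H + 1 : ℝ) ^ (m + m' + 2) := by
  obtain ⟨N, hN⟩ := emb_finite s
  obtain ⟨δ, hδ, H₀, hH⟩ := sieve_gt hm hm' N
  refine ⟨δ, hδ, H₀, fun H hH₀ b => le_trans ?_ (hH H hH₀ b)⟩
  have hfin : Finite {v : Fin (m + 1) ⊕ Fin (m' + 1) → ℤ // (∀ i, |v i - b i| ≤ (H : ℤ)) ∧
      ¬ GoodGt N v} := by
    apply Set.Finite.subset (Set.Finite.pi' fun i => Set.finite_Icc (b i - (H : ℤ)) (b i + H))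
    rintro v ⟨hv, -⟩ i
    have := abs_le.1 (hv i)
    exact ⟨by linarith [this.1], by linarith [this.2]⟩
  have key : ∀ v : Fin (m + 1) ⊕ Fin (m' + 1) → ℤ, GoodGt N v →
      ZeroSets {f : ℂ[X] | ∀ k, f.coeff k ∈ Algebra.adjoin ℤ (s : Set ℂ)}
          ((∑ i : Fin (m + 1), C (v (Sum.inl i)) * X ^ (i : ℕ) : ℤ[X]).map (Int.castRingHom ℂ))
          ((∑ i : Fin (m' + 1), C (v (Sum.inr i)) * X ^ (i : ℕ) : ℤ[X]).map
            (Int.castRingHom ℂ)) := by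
    rintro v ⟨p, hp, hNp, h1, h2⟩
    obtain ⟨τ, hτ⟩ := hN p hNp
    refine main_int_emb τ _ ?_ (ipol fun i => v (Sum.inl i)) (ipol fun i => v (Sum.inr i)) ?_ ?_
    · intro f hf k
      have hle : Algebra.adjoin ℤ (s : Set ℂ) ≤
          subalgebraOfSubring ((unitBall (PadicAlgCl p)).comap τ) :=
        Algebra.adjoin_le fun x hx => hτ x hx
      exact hle (hf k)
    · intro x
      rw [ipol_eval]
      exact h1 x
    · intro x
      rw [ipol_eval]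
      exact h2 x
  have hle := Nat.card_le_card_of_injective
    (fun v : {v : Fin (m + 1) ⊕ Fin (m' + 1) → ℤ // (∀ i, |v i - b i| ≤ (H : ℤ)) ∧
        ¬ ZeroSets {f : ℂ[X] | ∀ k, f.coeff k ∈ Algebra.adjoin ℤ (s : Set ℂ)}
          ((∑ i : Fin (m + 1), C (v (Sum.inl i)) * X ^ (i : ℕ) : ℤ[X]).map (Int.castRingHom ℂ))
          ((∑ i : Fin (m' + 1), C (v (Sum.inr i)) * X ^ (i : ℕ) : ℤ[X]).map
            (Int.castRingHom ℂ))} =>
      (⟨v.1, v.2.1, fun h => v.2.2 (key v.1 h)⟩ :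
        {v : Fin (m + 1) ⊕ Fin (m' + 1) → ℤ // (∀ i, |v i - b i| ≤ (H : ℤ)) ∧ ¬ GoodGt N v}))
    (fun v w hvw => Subtype.ext (congrArg (fun z => z.1) hvw))
  exact_mod_cast hle

end Pool.Agent.TH838.PS
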